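import Mathlib

set_option autoImplicit false

/-! # Choice of residue classes by averaging -/

namespace Pool.Agent.L7h34.DF

open Finset

theorem choose_classes {κ : Type} [DecidableEq κ] (S : Finset ℕ) (hS : ∀ p ∈ S, 1 ≤ p)
    (H : ℕ → κ → Finset ℕ) (R : Finset κ) (hH : ∀ p ∈ S, ∀ k ∈ R, H p k ⊆ range p) :
    ∃ b : ℕ → ℕ, (∀ p ∈ S, b p < p) ∧
      ((R.filter (fun k => ∀ p ∈ S, b p ∉ H p k)).card : ℝ) ≤
        ∑ k ∈ R, ∏ p ∈ S, (1 - ((H p k).card : ℝ) / p) := by
  classical
  induction S using Finset.induction_on generalizing R with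
  | empty =>
    refine ⟨fun _ => 0, by simp, by simp⟩
  | insert p S hpS ih =>
    have hp1 : 1 ≤ p := hS p (mem_insert_self p S)
    have hpR : (0 : ℝ) < p := by exact_mod_cast hp1
    obtain ⟨w, hw⟩ : ∃ w : κ → ℝ, w = fun k => ∏ q ∈ S, (1 - ((H q k).card : ℝ) / q) := ⟨_, rfl⟩
    have hfac : ∀ q ∈ insert p S, ∀ k ∈ R, 0 ≤ 1 - ((H q k).card : ℝ) / q := by
      intro q hq k hk
      have hq1 : (0 : ℝ) < q := by exact_mod_cast hS q hq
      have h1 : ((H q k).card : ℝ) ≤ q := by
        have := card_le_card (hH q hq k hk)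
        rw [card_range] at this
        exact_mod_cast this
      have : ((H q k).card : ℝ) / q ≤ 1 := by rw [div_le_one hq1]; exact h1
      linarith
    have hw0 : ∀ k ∈ R, 0 ≤ w k := by
      intro k hk
      rw [hw]
      exact prod_nonneg fun q hq => hfac q (mem_insert_of_mem hq) k hk
    -- the average over the classes modulo `p`
    have hex : ∃ c ∈ range p, ∑ k ∈ R.filter (fun k => c ∉ H p k), w k ≤
        ∑ k ∈ R, (1 - ((H p k).card : ℝ) / p) * w k := by
      by_contra hcon
      push Not at hcon
      have h1 : ∑ c ∈ range p, (∑ k ∈ R, (1 - ((H p k).card : ℝ) / p) * w k) <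
          ∑ c ∈ range p, ∑ k ∈ R.filter (fun k => c ∉ H p k), w k :=
        sum_lt_sum_of_nonempty ⟨0, mem_range.2 hp1⟩ hcon
      have h2 : ∑ c ∈ range p, ∑ k ∈ R.filter (fun k => c ∉ H p k), w k =
          ∑ k ∈ R, ((p : ℝ) - (H p k).card) * w k := by
        simp_rw [sum_filter]
        rw [sum_comm]
        apply sum_congr rfl
        intro k hk
        rw [← sum_filter, sum_const, nsmul_eq_mul]
        congr 1
        have h3 : (range p).filter (fun c => c ∉ H p k) = range p \ H p k := by
          ext c
          simp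
        rw [h3, card_sdiff_of_subset (hH p (mem_insert_self p S) k hk), card_range,
          Nat.cast_sub (by simpa using card_le_card (hH p (mem_insert_self p S) k hk))]
      rw [h2, sum_const, card_range, nsmul_eq_mul, mul_sum] at h1
      apply lt_irrefl _ (lt_of_lt_of_eq h1 _)
      apply sum_congr rfl
      intro k _
      field_simp
    obtain ⟨c, hc, hcs⟩ := hex
    obtain ⟨b, hb1, hb2⟩ := ih (fun q hq => hS q (mem_insert_of_mem hq))
      (R.filter (fun k => c ∉ H p k)) (fun q hq k hk => hH q (mem_insert_of_mem hq) k (mem_filter.1 hk).1)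
    refine ⟨fun q => if q = p then c else b q, ?_, ?_⟩
    · intro q hq
      dsimp only
      split_ifs with h
      · rw [h]; exact mem_range.1 hc
      · exact hb1 q ((mem_insert.1 hq).resolve_left h)
    · have e : R.filter (fun k => ∀ q ∈ insert p S, (if q = p then c else b q) ∉ H q k) =
          (R.filter (fun k => c ∉ H p k)).filter (fun k => ∀ q ∈ S, b q ∉ H q k) := by
        ext k
        rw [mem_filter, mem_filter, mem_filter]
        constructor
        · rintro ⟨h1, h2⟩
          refine ⟨⟨h1, ?_⟩, ?_⟩
          · have := h2 p (mem_insert_self p S)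
            rwa [if_pos rfl] at this
          · intro q hq
            have := h2 q (mem_insert_of_mem hq)
            rwa [if_neg (show q ≠ p from fun h => hpS (h ▸ hq))] at this
        · rintro ⟨⟨h1, h2⟩, h3⟩
          refine ⟨h1, fun q hq => ?_⟩
          rcases mem_insert.1 hq with rfl | hq
          · rwa [if_pos rfl]
          · rw [if_neg (show q ≠ p from fun h => hpS (h ▸ hq))]
            exact h3 q hq
      rw [e]
      refine hb2.trans ?_
      have e2 : ∑ k ∈ R.filter (fun k => c ∉ H p k), ∏ q ∈ S, (1 - ((H q k).card : ℝ) / q) =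
          ∑ k ∈ R.filter (fun k => c ∉ H p k), w k := by rw [hw]
      rw [e2]
      refine hcs.trans (le_of_eq ?_)
      apply sum_congr rfl
      intro k _
      rw [prod_insert hpS, hw]

end Pool.Agent.L7h34.DF
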