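import Mathlib
import Pool.Agent.H474R2.PG.Defs

set_option autoImplicit false

/-! # The polynomials `n + t` and `n² + t n + (t² + d b²) / 4` -/

namespace Pool.Agent.L7h34.DF

open Polynomial Finset
open Pool.Agent.H474R2.PG (rho)

/-- the polynomial of a colour `(d, t, b)`: `X + t` if `d = 0`, otherwise `X² + t X + (t² + d b²) / 4` -/
noncomputable def CP (k : ℕ × ℤ × ℤ) : ℤ[X] :=
  if k.1 = 0 then X + C k.2.1
  else X ^ 2 + C k.2.1 * X + C ((k.2.1 ^ 2 + k.1 * k.2.2 ^ 2) / 4)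

/-- the fixed polynomials `X` and `X² + d` -/
noncomputable def gP (d : ℕ) : ℤ[X] := if d = 0 then X else X ^ 2 + C (d : ℤ)

/-- admissible colours -/
def Val (D T : ℕ) (k : ℕ × ℤ × ℤ) : Prop :=
  (k.1 = 0 ∧ |k.2.1| ≤ T ∧ k.2.2 = 0) ∨
  (1 ≤ k.1 ∧ k.1 ≤ D ∧ Squarefree k.1 ∧ 1 ≤ k.2.2 ∧ (4 : ℤ) ∣ k.2.1 ^ 2 + k.1 * k.2.2 ^ 2 ∧
    k.2.1 ^ 2 + k.1 * k.2.2 ^ 2 ≤ 4 * T)

theorem gP_natDegree (d : ℕ) : 0 < (gP d).natDegree := by
  unfold gP
  split_ifs
  · simp
  · rw [natDegree_X_pow_add_C]; norm_num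

theorem gP_irreducible (d : ℕ) : Irreducible (gP d) := by
  unfold gP
  split_ifs with h
  · exact irreducible_X
  · have hm : (X ^ 2 + C (d : ℤ) : ℤ[X]).Monic := monic_X_pow_add_C _ (by norm_num)
    have hn : (X ^ 2 + C (d : ℤ) : ℤ[X]).natDegree = 2 := natDegree_X_pow_add_C
    rw [hm.irreducible_iff_roots_eq_zero_of_degree_le_three (by rw [hn]) (by rw [hn]; norm_num)]
    apply Multiset.eq_zero_of_forall_notMem
    intro a ha
    have h1 := isRoot_of_mem_roots ha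
    rw [IsRoot.def] at h1
    simp only [eval_add, eval_pow, eval_X, eval_C] at h1
    have hd : (1 : ℤ) ≤ d := by
      have : 1 ≤ d := by omega
      exact_mod_cast this
    nlinarith [sq_nonneg a]

/-- the number of roots in `ZMod p` -/
theorem rho_zmod (f : ℤ[X]) (p : ℕ) [Fact p.Prime] :
    rho f p = (univ.filter (fun x : ZMod p => (f.map (Int.castRingHom (ZMod p))).eval x = 0)).card := by
  classical
  unfold rho
  have hev : ∀ a : ℤ, (p : ℤ) ∣ f.eval a ↔
      (f.map (Int.castRingHom (ZMod p))).eval (a : ZMod p) = 0 := by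
    intro a
    rw [← ZMod.intCast_zmod_eq_zero_iff_dvd, eval_intCast_map, eq_intCast]
    rfl
  apply card_nbij' (fun a : ℕ => (a : ZMod p)) (fun x : ZMod p => x.val)
  · intro a ha
    rw [mem_coe, mem_filter] at ha
    rw [mem_coe, mem_filter]
    refine ⟨mem_univ _, ?_⟩
    have := (hev a).1 ha.2
    simpa using this
  · intro x hx
    rw [mem_coe, mem_filter] at hx
    rw [mem_coe, mem_filter, mem_range]
    refine ⟨ZMod.val_lt x, ?_⟩
    rw [hev]
    simpa using hx.2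
  · intro a ha
    rw [mem_coe, mem_filter, mem_range] at ha
    exact ZMod.val_cast_of_lt ha.1
  · intro x _
    simp

theorem rho_lin (p : ℕ) (hp : p.Prime) (a : ℤ) : rho (X + C a) p = 1 := by
  have : Fact p.Prime := ⟨hp⟩
  classical
  rw [rho_zmod, card_eq_one]
  refine ⟨-(a : ZMod p), ?_⟩
  ext x
  rw [mem_filter, mem_singleton]
  have e1 : ((X + C a : ℤ[X]).map (Int.castRingHom (ZMod p))).eval x = x + a := by simp
  rw [e1]
  simp only [mem_univ, true_and]
  constructor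
  · intro h; exact eq_neg_of_add_eq_zero_left h
  · intro h; rw [h]; ring

theorem rho_gP_zero (p : ℕ) (hp : p.Prime) : rho (gP 0) p = 1 := by
  have h := rho_lin p hp 0
  unfold gP
  rw [if_pos rfl]
  simpa using h

theorem four_ne_zero' (p : ℕ) [Fact p.Prime] (hp2 : p ≠ 2) : (2 : ZMod p) ≠ 0 := by
  intro h
  have h1 : ((2 : ℕ) : ZMod p) = 0 := by exact_mod_cast h
  rw [ZMod.natCast_eq_zero_iff] at h1
  have hp : p.Prime := Fact.out
  rcases (Nat.dvd_prime Nat.prime_two).1 h1 with h2 | h2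
  · exact hp.one_lt.ne' h2
  · exact hp2 h2

/-- the number of roots of the polynomial of a colour -/
theorem rho_quad (p : ℕ) (hp : p.Prime) (hp2 : p ≠ 2) (d : ℕ) (hd : d ≠ 0) (t b : ℤ)
    (h4 : (4 : ℤ) ∣ t ^ 2 + d * b ^ 2) (hb : ¬ (p : ℤ) ∣ b) :
    rho (CP (d, t, b)) p = rho (gP d) p := by
  have : Fact p.Prime := ⟨hp⟩
  classical
  have h2 := four_ne_zero' p hp2
  have hb0 : (b : ZMod p) ≠ 0 := by
    intro h
    exact hb ((ZMod.intCast_zmod_eq_zero_iff_dvd b p).1 h)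
  obtain ⟨N, hN⟩ := h4
  have hdiv : (t ^ 2 + d * b ^ 2) / 4 = N := by
    rw [hN]; exact Int.mul_ediv_cancel_left N (by norm_num)
  have hNp : (t : ZMod p) ^ 2 + d * (b : ZMod p) ^ 2 = 4 * (N : ZMod p) := by
    have := congrArg (Int.cast : ℤ → ZMod p) hN
    push_cast at this
    exact this
  rw [rho_zmod, rho_zmod]
  unfold CP gP
  rw [if_neg hd, if_neg hd]
  dsimp only
  rw [hdiv]
  have e1 : ∀ x : ZMod p, ((X ^ 2 + C t * X + C N : ℤ[X]).map (Int.castRingHom (ZMod p))).eval x =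
      x ^ 2 + t * x + N := by
    intro x
    simp
  have e2 : ∀ x : ZMod p, ((X ^ 2 + C (d : ℤ) : ℤ[X]).map (Int.castRingHom (ZMod p))).eval x =
      x ^ 2 + d := by
    intro x
    simp
  simp only [e1, e2]
  apply card_nbij' (fun x : ZMod p => (2 * x + t) * (b : ZMod p)⁻¹)
    (fun m : ZMod p => (m * b - t) * (2 : ZMod p)⁻¹)
  · intro x hx
    rw [mem_coe, mem_filter] at hx
    rw [mem_coe, mem_filter]
    refine ⟨mem_univ _, ?_⟩
    have h3 : (2 * x + t) ^ 2 = -(d * (b : ZMod p) ^ 2) := by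
      linear_combination 4 * hx.2 + hNp
    rw [mul_pow, h3]
    field_simp
    ring
  · intro m hm
    rw [mem_coe, mem_filter] at hm
    rw [mem_coe, mem_filter]
    refine ⟨mem_univ _, ?_⟩
    have h3 : (4 : ZMod p) * (((m * b - t) * (2 : ZMod p)⁻¹) ^ 2 + t * ((m * b - t) * (2 : ZMod p)⁻¹) + N) = 0 := by
      have e3 : (2 : ZMod p) * (2 : ZMod p)⁻¹ = 1 := mul_inv_cancel₀ h2
      linear_combination (b : ZMod p) ^ 2 * hm.2 - hNp +
        ((m * b - t) ^ 2 * (2 * (2 : ZMod p)⁻¹ + 1) + 2 * t * (m * b - t)) * e3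
    have h40 : (4 : ZMod p) ≠ 0 := by
      have : (4 : ZMod p) = 2 * 2 := by norm_num
      rw [this]
      exact mul_ne_zero h2 h2
    exact (mul_eq_zero.1 h3).resolve_left h40
  · intro x _
    dsimp only
    field_simp
    ring
  · intro m _
    dsimp only
    field_simp
    ring

theorem rho_gP_le (d : ℕ) (p : ℕ) (hp : p.Prime) : rho (gP d) p ≤ 2 := by
  have : Fact p.Prime := ⟨hp⟩
  classical
  by_cases hd : d = 0
  · rw [hd, rho_gP_zero p hp]; norm_num
  rw [rho_zmod]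
  unfold gP
  rw [if_neg hd]
  set f : (ZMod p)[X] := (X ^ 2 + C (d : ℤ) : ℤ[X]).map (Int.castRingHom (ZMod p)) with hf
  have hf' : f = X ^ 2 + C (d : ZMod p) := by rw [hf]; simp
  have hm : f.Monic := by rw [hf']; exact monic_X_pow_add_C _ (by norm_num)
  have hn : f.natDegree = 2 := by rw [hf']; exact natDegree_X_pow_add_C
  have hsub : univ.filter (fun x : ZMod p => f.eval x = 0) ⊆ f.roots.toFinset := by
    intro x hx
    rw [mem_filter] at hx
    rw [Multiset.mem_toFinset, mem_roots hm.ne_zero]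
    exact hx.2
  calc (univ.filter (fun x : ZMod p => f.eval x = 0)).card ≤ f.roots.toFinset.card := card_le_card hsub
    _ ≤ Multiset.card f.roots := Multiset.toFinset_card_le _
    _ ≤ f.natDegree := card_roots' f
    _ = 2 := hn

theorem squarefree_unique {d e : ℕ} {b c : ℤ} (hd : Squarefree d) (he : Squarefree e) (hb : 1 ≤ b)
    (hc : 1 ≤ c) (h : (d : ℤ) * b ^ 2 = e * c ^ 2) : d = e ∧ b = c := by
  obtain ⟨m, rfl⟩ := Int.eq_ofNat_of_zero_le (show 0 ≤ b by omega)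
  obtain ⟨n, rfl⟩ := Int.eq_ofNat_of_zero_le (show 0 ≤ c by omega)
  have hm : m ≠ 0 := by rintro rfl; simp at hb
  have hn : n ≠ 0 := by rintro rfl; simp at hc
  have h' : d * m ^ 2 = e * n ^ 2 := by exact_mod_cast h
  have hde : d = e := by
    apply Nat.eq_of_factorization_eq hd.ne_zero he.ne_zero
    intro p
    have h1 := congrArg (fun x => x.factorization p) h'
    simp only [Nat.factorization_mul hd.ne_zero (pow_ne_zero 2 hm),
      Nat.factorization_mul he.ne_zero (pow_ne_zero 2 hn), Nat.factorization_pow, Finsupp.add_apply,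
      Finsupp.smul_apply, smul_eq_mul] at h1
    have h2 := hd.natFactorization_le_one p
    have h3 := he.natFactorization_le_one p
    omega
  refine ⟨hde, ?_⟩
  rw [hde] at h'
  have h4 : m ^ 2 = n ^ 2 := Nat.eq_of_mul_eq_mul_left (Nat.pos_of_ne_zero he.ne_zero) h'
  have h5 : m = n := Nat.pow_left_injective (n := 2) (by norm_num) h4
  rw [h5]

theorem eval_lin (t b a : ℤ) : (CP (0, t, b)).eval a = a + t := by
  unfold CP
  rw [if_pos rfl]
  simp

theorem eval_quad (d : ℕ) (hd : d ≠ 0) (t b a : ℤ) (h4 : (4 : ℤ) ∣ t ^ 2 + d * b ^ 2) :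
    4 * (CP (d, t, b)).eval a = (2 * a + t) ^ 2 + d * b ^ 2 := by
  unfold CP
  rw [if_neg hd]
  simp only [eval_add, eval_pow, eval_X, eval_mul, eval_C]
  have := Int.mul_ediv_cancel' h4
  linear_combination this

theorem pos_lt {p : ℤ} {x : ℤ} (h : p ∣ x) (h0 : 0 ≤ x) (hlt : x < p) : x = 0 :=
  Int.eq_zero_of_dvd_of_nonneg_of_lt h0 hlt h

theorem nocoll (D T p : ℕ) (hT : 1 ≤ T) (hp : 900 * T ^ 2 < p) (a : ℤ) (k l : ℕ × ℤ × ℤ)
    (hk : Val D T k) (hl : Val D T l) (h1 : (p : ℤ) ∣ (CP k).eval a) (h2 : (p : ℤ) ∣ (CP l).eval a) :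
    k = l := by
  have hTz : (1 : ℤ) ≤ T := by exact_mod_cast hT
  have hpz : 900 * (T : ℤ) ^ 2 < p := by exact_mod_cast hp
  have hT2 : (T : ℤ) ≤ (T : ℤ) ^ 2 := by nlinarith
  have linquad : ∀ (t : ℤ) (b : ℤ) (d : ℕ) (t' b' : ℤ), |t| ≤ T → 1 ≤ d → 1 ≤ b' →
      (4 : ℤ) ∣ t' ^ 2 + d * b' ^ 2 → t' ^ 2 + d * b' ^ 2 ≤ 4 * T →
      (p : ℤ) ∣ (CP (0, t, b)).eval a → (p : ℤ) ∣ (CP (d, t', b')).eval a → False := by
    intro t b d t' b' ht hd hb' h4 hle g1 g2
    have hdz : (1 : ℤ) ≤ d := by exact_mod_cast hd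
    rw [eval_lin] at g1
    have g3 : (p : ℤ) ∣ (2 * a + t') ^ 2 + d * b' ^ 2 := by
      rw [← eval_quad d (by omega) t' b' a h4]
      exact g2.mul_left 4
    have g4 : (p : ℤ) ∣ (t' - 2 * t) ^ 2 + d * b' ^ 2 := by
      have e : (t' - 2 * t) ^ 2 + d * b' ^ 2 =
          ((2 * a + t') ^ 2 + d * b' ^ 2) - (a + t) * (4 * (a - t) + 4 * t') := by ring
      rw [e]
      exact dvd_sub g3 (g1.mul_right _)
    rw [abs_le] at ht
    have hb2 : 1 ≤ d * b' ^ 2 := by nlinarith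
    have ht'2 : t' ^ 2 ≤ 4 * T := by linarith
    have hbd : (t' - 2 * t) ^ 2 + d * b' ^ 2 < p := by
      have e1 : (t' - 2 * t) ^ 2 ≤ 2 * t' ^ 2 + 8 * t ^ 2 := by nlinarith [sq_nonneg (t' + 2 * t)]
      have e2 : t ^ 2 ≤ (T : ℤ) ^ 2 := by nlinarith
      have e3 : (d : ℤ) * b' ^ 2 ≤ 4 * T := by nlinarith [sq_nonneg t']
      nlinarith
    have := pos_lt g4 (by positivity) hbd
    nlinarith [sq_nonneg (t' - 2 * t)]
  obtain ⟨d, t, b⟩ := k
  obtain ⟨d', t', b'⟩ := l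
  rcases hk with ⟨hd, ht, hb⟩ | ⟨hd, hdD, hsd, hb, h4, hle⟩
  · dsimp only at hd ht hb
    subst hd
    rcases hl with ⟨hd', ht', hb'⟩ | ⟨hd', hdD', hsd', hb', h4', hle'⟩
    · dsimp only at hd' ht' hb'
      subst hd'
      rw [eval_lin] at h1 h2
      have h3 : (p : ℤ) ∣ t - t' := by
        have := dvd_sub h1 h2
        have e : a + t - (a + t') = t - t' := by ring
        rwa [e] at this
      rw [abs_le] at ht ht'
      have h5 : t - t' = 0 := by
        apply Int.eq_zero_of_abs_lt_dvd h3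
        rw [abs_lt]
        constructor <;> nlinarith
      rw [show t = t' by linarith, hb, hb']
    · exact (linquad t b d' t' b' ht hd' hb' h4' hle' h1 h2).elim
  · dsimp only at hd hdD hsd hb h4 hle
    rcases hl with ⟨hd', ht', hb'⟩ | ⟨hd', hdD', hsd', hb', h4', hle'⟩
    · dsimp only at hd' ht' hb'
      subst hd'
      exact (linquad t' b' d t b ht' hd hb h4 hle h2 h1).elim
    · dsimp only at hd' hdD' hsd' hb' h4' hle'
      have hdz : (1 : ℤ) ≤ d := by exact_mod_cast hd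
      have hdz' : (1 : ℤ) ≤ d' := by exact_mod_cast hd'
      have g1 : (p : ℤ) ∣ (2 * a + t) ^ 2 + d * b ^ 2 := by
        rw [← eval_quad d (by omega) t b a h4]
        exact h1.mul_left 4
      have g2 : (p : ℤ) ∣ (2 * a + t') ^ 2 + d' * b' ^ 2 := by
        rw [← eval_quad d' (by omega) t' b' a h4']
        exact h2.mul_left 4
      obtain ⟨s, hs⟩ : ∃ s, s = t' - t := ⟨_, rfl⟩
      obtain ⟨e, he⟩ : ∃ e, e = d * b ^ 2 - d' * b' ^ 2 - s ^ 2 := ⟨_, rfl⟩
      have g3 : (p : ℤ) ∣ 2 * s * (2 * a + t) - e := by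
        have := dvd_sub g2 g1
        have e1 : (2 * a + t') ^ 2 + d' * b' ^ 2 - ((2 * a + t) ^ 2 + d * b ^ 2) =
            2 * s * (2 * a + t) - e := by
          rw [he, hs]; ring
        rwa [e1] at this
      have g4 : (p : ℤ) ∣ e ^ 2 + 4 * s ^ 2 * (d * b ^ 2) := by
        have e1 : e ^ 2 + 4 * s ^ 2 * (d * b ^ 2) =
            4 * s ^ 2 * ((2 * a + t) ^ 2 + d * b ^ 2) -
              (2 * s * (2 * a + t) - e) * (2 * s * (2 * a + t) + e) := by ring
        rw [e1]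
        exact dvd_sub (g1.mul_left _) (g3.mul_right _)
      have hb2 : 1 ≤ d * b ^ 2 := by nlinarith
      have hb2' : 1 ≤ d' * b' ^ 2 := by nlinarith
      have q1 : t ^ 2 ≤ 4 * T := by linarith
      have q2 : t' ^ 2 ≤ 4 * T := by linarith
      have q3 : (d : ℤ) * b ^ 2 ≤ 4 * T := by nlinarith [sq_nonneg t]
      have q4 : (d' : ℤ) * b' ^ 2 ≤ 4 * T := by nlinarith [sq_nonneg t']
      have q5 : s ^ 2 ≤ 16 * T := by
        rw [hs]
        nlinarith [sq_nonneg (t + t')]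
      have q6 : 0 ≤ s ^ 2 := sq_nonneg s
      have q7 : e ^ 2 ≤ 400 * (T : ℤ) ^ 2 := by
        have e1 : e ≤ 20 * T := by rw [he]; linarith
        have e2 : -(20 * (T : ℤ)) ≤ e := by rw [he]; linarith
        nlinarith
      have q8 : s ^ 2 * (d * b ^ 2) ≤ (16 * T) * (4 * T) :=
        mul_le_mul q5 q3 (by linarith) (by linarith)
      have h0 : e ^ 2 + 4 * s ^ 2 * (d * b ^ 2) = 0 := by
        apply pos_lt g4
        · positivity
        · nlinarith
      have q9 : 0 ≤ s ^ 2 * (d * b ^ 2) := by positivity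
      have he0 : e = 0 := by
        have : e ^ 2 = 0 := le_antisymm (by linarith) (sq_nonneg e)
        exact pow_eq_zero_iff (by norm_num) |>.1 this
      have hs0 : s = 0 := by
        have : s ^ 2 * (d * b ^ 2) = 0 := le_antisymm (by linarith [sq_nonneg e]) q9
        rcases mul_eq_zero.1 this with h | h
        · exact pow_eq_zero_iff (by norm_num) |>.1 h
        · linarith
      rw [hs0] at he
      have hdb : (d : ℤ) * b ^ 2 = d' * b' ^ 2 := by
        rw [he0] at he; linarith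
      obtain ⟨r1, r2⟩ := squarefree_unique hsd hsd' hb hb' hdb
      have r3 : t = t' := by linarith
      rw [r1, r2, r3]

end Pool.Agent.L7h34.DF
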