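import Pool.Agent.L7h34.DF.Main

set_option autoImplicit false

/-! # Record prime gaps thicken to prime-free discs: the final theorem -/

namespace Pool.Agent.L7h34.DF

open Finset Filter Polynomial
open Pool.Agent.H256R2.SC (ff)

theorem discs (D : ℕ) : ∃ c : ℝ, 0 < c ∧ ∃ X₀ : ℝ, ∀ X : ℝ, X₀ ≤ X → ∀ M : ℕ,
    ∃ n : ℕ, M < n ∧ (n : ℝ) ≤ M + X ∧
      (∀ q : ℕ, q.Prime → c * ff X < |(q : ℝ) - n|) ∧
      ∀ d : ℕ, 1 ≤ d → d ≤ D → ∀ t b N : ℤ, b ≠ 0 → t ^ 2 + d * b ^ 2 = 4 * N →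
        (N : ℝ) ≤ c * ff X → ¬ Prime ((n : ℤ) ^ 2 + t * n + N) := by
  obtain ⟨c, hc, X₀, h⟩ := main D
  refine ⟨c, hc, X₀, fun X hX M => ?_⟩
  obtain ⟨n, h1, h2, h3, h4, h5, h6, h7⟩ := h X hX M
  have hX0 : 0 < X := by linarith
  have hM : (0 : ℝ) ≤ M := Nat.cast_nonneg M
  have hcf : 0 ≤ c * ff X := by linarith
  refine ⟨n, ?_, h2, ?_, ?_⟩
  · have : (M : ℝ) < n := by linarith
    exact_mod_cast this
  · intro q hq
    by_contra hcon
    push Not at hcon
    obtain ⟨p, hp, hpX, hpd⟩ := h7 (0, (q : ℤ) - n, 0) (Or.inl ⟨rfl, by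
      dsimp only
      have e1 : (((q : ℤ) - n).natAbs : ℝ) ≤ c * ff X := by
        rw [Nat.cast_natAbs]
        push_cast
        exact hcon
      have e2 := Nat.le_floor e1
      have e3 : |(q : ℤ) - n| = (((q : ℤ) - n).natAbs : ℤ) := (Int.natCast_natAbs _).symm
      rw [e3]
      exact_mod_cast e2, rfl⟩)
    rw [eval_lin] at hpd
    have e1 : (n : ℤ) + ((q : ℤ) - n) = q := by ring
    rw [e1] at hpd
    have e2 : p ∣ q := by exact_mod_cast hpd
    have e3 : p = q := (Nat.prime_dvd_prime_iff_eq hp hq).mp e2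
    rw [e3] at hpX
    have e4 := (abs_le.1 hcon).1
    linarith
  · intro d hd1 hdD t b N hb hN hNX hprime
    obtain ⟨d', s, hds, hsq⟩ := Nat.sq_mul_squarefree d
    have hs0 : s ≠ 0 := by
      rintro rfl
      rw [zero_pow two_ne_zero, zero_mul] at hds
      omega
    have hd'0 : d' ≠ 0 := by
      rintro rfl
      rw [mul_zero] at hds
      omega
    have hd'D : d' ≤ D := by
      have : d' ≤ s ^ 2 * d' := Nat.le_mul_of_pos_left _ (by positivity)
      omega
    have hb1 : 1 ≤ |b| := Int.one_le_abs hb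
    have hs1 : (1 : ℤ) ≤ s := by exact_mod_cast Nat.one_le_iff_ne_zero.2 hs0
    have hN' : t ^ 2 + (d' : ℤ) * (|b| * s) ^ 2 = 4 * N := by
      have e1 : (d : ℤ) = (s : ℤ) ^ 2 * d' := by exact_mod_cast hds.symm
      rw [← hN, e1, mul_pow, sq_abs]
      ring
    have hN0 : 0 ≤ N := by
      have : (0 : ℤ) ≤ (d' : ℤ) * (|b| * s) ^ 2 := by positivity
      nlinarith [sq_nonneg t]
    have hNT : N ≤ (⌊c * ff X⌋₊ : ℤ) := by
      obtain ⟨m, rfl⟩ := Int.eq_ofNat_of_zero_le hN0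
      have e1 : (m : ℝ) ≤ c * ff X := by exact_mod_cast hNX
      exact_mod_cast Nat.le_floor e1
    obtain ⟨p, hp, hpX, hpd⟩ := h7 (d', t, |b| * s) (Or.inr ⟨Nat.one_le_iff_ne_zero.2 hd'0, hd'D, hsq, by
      dsimp only
      nlinarith, by dsimp only; rw [hN']; exact dvd_mul_right _ _, by
      dsimp only
      rw [hN']
      linarith⟩)
    have hev : (CP (d', t, |b| * s)).eval (n : ℤ) = (n : ℤ) ^ 2 + t * n + N := by
      unfold CP
      rw [if_neg hd'0]
      dsimp only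
      rw [hN', Int.mul_ediv_cancel_left _ (by norm_num)]
      simp
    rw [hev] at hpd
    have hp' : Prime (p : ℤ) := Nat.prime_iff_prime_int.mp hp
    have hass := (hp'.dvd_prime_iff_associated hprime).1 hpd
    have hval : (p : ℤ) = ((n : ℤ) ^ 2 + t * n + N).natAbs := by
      have := Int.associated_iff_natAbs.1 hass
      rw [Int.natAbs_natCast] at this
      exact_mod_cast this
    have hval2 : (n : ℤ) ^ 2 + t * n + N ≤ p := by
      rw [hval]
      exact Int.le_natAbs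
    have hval3 : ((n : ℝ) ^ 2 + t * n + N) ≤ p := by exact_mod_cast hval2
    have hNr : (t : ℝ) ^ 2 + d * b ^ 2 = 4 * N := by exact_mod_cast hN
    have hdb : (0 : ℝ) ≤ d * b ^ 2 := by positivity
    have ht2 : (t : ℝ) ^ 2 ≤ X / 4 := by nlinarith
    have ht : -(X / 10) ≤ (t : ℝ) := by
      by_contra hcon
      push Not at hcon
      nlinarith
    have h2n : (9 / 10) * X ≤ 2 * n + t := by linarith
    have h8 : (2 * (n : ℝ) + t) ^ 2 ≤ 4 * p := by nlinarith
    nlinarith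

end Pool.Agent.L7h34.DF
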