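import Pool.Agent.N201.MC.Cover
import Pool.Agent.H474R2.GE.FA
import Pool.Agent.H474R2.PG.Rough
import Pool.Agent.H474R2.PG.Count
import Pool.Agent.H474R2.PG.Final

set_option autoImplicit false

/-! # Killing a family of polynomial values by primes up to a power of `X`

The covering theorem `Pool.Agent.N201.MC.covering_multi` for colours which are polynomials.  The proof
follows `Pool.Agent.H474R2.PG.Final` and `Pool.Agent.H474R2.PG.Count` (helper474). -/

namespace Pool.Agent.L7h34.DF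

open Polynomial Finset Filter Pool.Agent.H474R2.PG

/-- counting in residue classes, with a polynomial for each prime -/
theorem count_poly (A B : ℤ) (hAB : A ≤ B) (W : ℕ) (hW : 1 ≤ W) (r : ℤ)
    (T : Finset ℕ) (hT : ∀ p ∈ T, p.Prime ∧ ¬ p ∣ W) (F : ℕ → ℤ[X]) :
    |(((Finset.Ioc A B).filter (fun a : ℤ => (W : ℤ) ∣ a - r ∧
        ∀ p ∈ T, (p : ℤ) ∣ (F p).eval a)).card : ℝ) -
      ((B : ℝ) - A) / W * ∏ p ∈ T, (rho (F p) p : ℝ) / (p : ℝ)| ≤ ∏ p ∈ T, (rho (F p) p : ℝ) := by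
  classical
  induction T using Finset.induction_on generalizing W r with
  | empty =>
    have h := Pool.Agent.H256R2.SC.count_ap A B hAB W hW r
    simpa using h
  | insert p T hpT ih =>
    obtain ⟨hp, hpW⟩ := hT p (Finset.mem_insert_self p T)
    have hp0 : (0 : ℤ) < (p : ℤ) := by exact_mod_cast hp.pos
    have hpR : (0 : ℝ) < (p : ℝ) := by exact_mod_cast hp.pos
    have hWR : (0 : ℝ) < (W : ℝ) := by exact_mod_cast hW
    obtain ⟨Z, hZ⟩ : ∃ Z, Z = (Finset.range p).filter (fun a : ℕ => (p : ℤ) ∣ (F p).eval (a : ℤ)) :=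
      ⟨_, rfl⟩
    have hZc : Z.card = rho (F p) p := by rw [hZ]; rfl
    have hcop : IsCoprime (W : ℤ) (p : ℤ) := by
      rw [Nat.isCoprime_iff_coprime]
      exact (Nat.Coprime.symm ((Nat.Prime.coprime_iff_not_dvd hp).2 hpW))
    -- the classes
    have hcrt : ∀ c : ℕ, ∃ rc : ℤ, (W : ℤ) ∣ rc - r ∧ (p : ℤ) ∣ rc - (c : ℤ) := by
      intro c
      obtain ⟨u, v, huv⟩ := hcop
      refine ⟨r * (v * p) + (c : ℤ) * (u * W), ?_, ?_⟩
      · refine ⟨u * ((c : ℤ) - r), ?_⟩
        have : v * (p : ℤ) = 1 - u * W := by linarith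
        rw [this]; ring
      · refine ⟨v * (r - (c : ℤ)), ?_⟩
        have : u * (W : ℤ) = 1 - v * p := by linarith
        rw [this]; ring
    choose rc hrc1 hrc2 using hcrt
    obtain ⟨G, hG⟩ : ∃ G, G = (Finset.Ioc A B).filter (fun a : ℤ => (W : ℤ) ∣ a - r ∧
        ∀ q ∈ insert p T, (q : ℤ) ∣ (F q).eval a) := ⟨_, rfl⟩
    have hfib : G.card = ∑ c ∈ Z, ((Finset.Ioc A B).filter (fun a : ℤ =>
        ((W * p : ℕ) : ℤ) ∣ a - rc c ∧ ∀ q ∈ T, (q : ℤ) ∣ (F q).eval a)).card := by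
      have hmod : ∀ a : ℤ, (((a % (p : ℤ)).toNat : ℕ) : ℤ) = a % (p : ℤ) :=
        fun a => Int.toNat_of_nonneg (Int.emod_nonneg _ hp0.ne')
      have hdvd : ∀ a : ℤ, (p : ℤ) ∣ a - ((a % (p : ℤ)).toNat : ℕ) := by
        intro a
        rw [hmod]
        exact Int.dvd_self_sub_emod
      have hmaps : Set.MapsTo (fun a : ℤ => (a % (p : ℤ)).toNat) (G : Set ℤ) (Z : Set ℕ) := by
        intro a ha
        rw [Finset.mem_coe, hG, Finset.mem_filter] at ha
        rw [Finset.mem_coe, hZ, Finset.mem_filter, Finset.mem_range]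
        constructor
        · have h1 := Int.emod_lt_of_pos a hp0
          have h2 := hmod a
          show (a % (p : ℤ)).toNat < p
          omega
        · have h3 := ha.2.2 p (Finset.mem_insert_self p T)
          exact (eval_dvd_congr (F p) p _ _ (hdvd a)).1 h3
      rw [Finset.card_eq_sum_card_fiberwise hmaps]
      refine Finset.sum_congr rfl (fun c hc => ?_)
      congr 1
      rw [hZ, Finset.mem_filter, Finset.mem_range] at hc
      ext a
      rw [hG, Finset.mem_filter, Finset.mem_filter, Finset.mem_filter]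
      constructor
      · rintro ⟨⟨h1, h2, h3⟩, h4⟩
        refine ⟨h1, ?_, fun q hq => h3 q (Finset.mem_insert_of_mem hq)⟩
        have h5 := hdvd a
        rw [h4] at h5
        have h6 : (p : ℤ) ∣ a - rc c := by
          have := dvd_sub h5 (hrc2 c)
          have e : a - (c : ℤ) - (rc c - (c : ℤ)) = a - rc c := by ring
          rwa [e] at this
        have h7 : (W : ℤ) ∣ a - rc c := by
          have := dvd_sub h2 (hrc1 c)
          have e : a - r - (rc c - r) = a - rc c := by ring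
          rwa [e] at this
        push_cast
        exact hcop.mul_dvd h7 h6
      · rintro ⟨h1, h2, h3⟩
        push_cast at h2
        have h7 : (W : ℤ) ∣ a - rc c := (Dvd.intro _ rfl).trans h2
        have h6 : (p : ℤ) ∣ a - rc c := (Dvd.intro_left _ rfl).trans h2
        have h5 : (p : ℤ) ∣ a - (c : ℤ) := by
          have := dvd_add h6 (hrc2 c)
          have e : a - rc c + (rc c - (c : ℤ)) = a - (c : ℤ) := by ring
          rwa [e] at this
        refine ⟨⟨h1, ?_, ?_⟩, ?_⟩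
        · have := dvd_add h7 (hrc1 c)
          have e : a - rc c + (rc c - r) = a - r := by ring
          rwa [e] at this
        · intro q hq
          rcases Finset.mem_insert.1 hq with rfl | hq
          · exact (eval_dvd_congr (F q) q _ _ h5).2 hc.2
          · exact h3 q hq
        · have h8 : a % (p : ℤ) = c := by
            have h10 : a % (p : ℤ) = (c : ℤ) % (p : ℤ) :=
              ((Int.modEq_iff_dvd.2 h5).symm)
            rw [h10]
            exact Int.emod_eq_of_lt (by omega) (by exact_mod_cast hc.1)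
          show (a % (p : ℤ)).toNat = c
          rw [h8]
          simp
    rw [← hG, hfib]
    have hWp : 1 ≤ W * p := Nat.mul_pos hW hp.pos
    have hT' : ∀ q ∈ T, q.Prime ∧ ¬ q ∣ W * p := by
      intro q hq
      obtain ⟨h1, h2⟩ := hT q (Finset.mem_insert_of_mem hq)
      refine ⟨h1, fun h => ?_⟩
      rcases (Nat.Prime.dvd_mul h1).1 h with h | h
      · exact h2 h
      · have := (Nat.prime_dvd_prime_iff_eq h1 hp).1 h
        exact hpT (this ▸ hq)
    have hbd := fun c => ih (W * p) hWp (rc c) hT'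
    rw [Finset.prod_insert hpT, Finset.prod_insert hpT]
    push_cast
    have e1 : ∑ c ∈ Z, (((Finset.Ioc A B).filter (fun a : ℤ =>
        ((W : ℤ) * p) ∣ a - rc c ∧ ∀ q ∈ T, (q : ℤ) ∣ (F q).eval a)).card : ℝ) -
        ((B : ℝ) - A) / W * ((rho (F p) p : ℝ) / p * ∏ q ∈ T, (rho (F q) q : ℝ) / (q : ℝ)) =
        ∑ c ∈ Z, ((((Finset.Ioc A B).filter (fun a : ℤ =>
        ((W * p : ℕ) : ℤ) ∣ a - rc c ∧ ∀ q ∈ T, (q : ℤ) ∣ (F q).eval a)).card : ℝ) -
        ((B : ℝ) - A) / (W * p : ℕ) * ∏ q ∈ T, (rho (F q) q : ℝ) / (q : ℝ)) := by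
      rw [Finset.sum_sub_distrib, Finset.sum_const, hZc, nsmul_eq_mul]
      push_cast
      congr 1
      field_simp
    rw [e1]
    calc _ ≤ ∑ c ∈ Z, |((((Finset.Ioc A B).filter (fun a : ℤ =>
        ((W * p : ℕ) : ℤ) ∣ a - rc c ∧ ∀ q ∈ T, (q : ℤ) ∣ (F q).eval a)).card : ℝ) -
        ((B : ℝ) - A) / (W * p : ℕ) * ∏ q ∈ T, (rho (F q) q : ℝ) / (q : ℝ))| :=
          Finset.abs_sum_le_sum_abs _ _
      _ ≤ ∑ c ∈ Z, ∏ q ∈ T, (rho (F q) q : ℝ) := Finset.sum_le_sum (fun c _ => hbd c)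
      _ = (rho (F p) p : ℝ) * ∏ q ∈ T, (rho (F q) q : ℝ) := by
          rw [Finset.sum_const, hZc, nsmul_eq_mul]

/-- All the polynomials of a family with at most `c log X` members have a prime factor `≤ X^(1/10)` at the
same integer, if their roots modulo the primes `p > (log X)^A` are disjoint and as many as those of
some of finitely many fixed irreducible polynomials. -/
theorem engine {ι : Type} [Fintype ι] (g : ι → ℤ[X]) (hg : ∀ i, Irreducible (g i))
    (hgd : ∀ i, 0 < (g i).natDegree) (A : ℕ) (hA : 2 ≤ A) :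
    ∃ c : ℝ, 0 < c ∧ ∃ X₀ : ℝ, ∀ X : ℝ, X₀ ≤ X →
    ∀ (κ : Type) [Fintype κ] [DecidableEq κ] [Nonempty κ] (cl : κ → ι) (P : κ → ℤ[X]),
    (Fintype.card κ : ℝ) ≤ c * Real.log X →
    (∀ k, ∀ p : ℕ, p.Prime → (Real.log X) ^ A < p → rho (P k) p = rho (g (cl k)) p) →
    (∀ p : ℕ, p.Prime → (Real.log X) ^ A < p → ∀ a : ℤ, ∀ k l,
      (p : ℤ) ∣ (P k).eval a → (p : ℤ) ∣ (P l).eval a → k = l) →
    ∀ (M₁ M₂ : ℤ), M₁ ≤ M₂ → ∀ W : ℕ, 1 ≤ W →
    (∀ p : ℕ, p.Prime → (Real.log X) ^ A < p → ¬ p ∣ W) →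
    X ^ (1 / 2 : ℝ) * W ≤ (M₂ : ℝ) - M₁ → ∀ r : ℤ,
    ∃ a : ℤ, M₁ < a ∧ a ≤ M₂ ∧ (W : ℤ) ∣ a - r ∧
      ∀ k, ∃ p : ℕ, p.Prime ∧ (p : ℝ) ≤ X ^ (1 / 10 : ℝ) ∧ (p : ℤ) ∣ (P k).eval a := by
  classical
  -- uniform constants
  choose B hB using fun i => rho_le (g i) (hg i).ne_zero
  choose C hC0 hM using fun i => Pool.Agent.H474R2.GE.mertens_rho (g i) (hg i) (hgd i)
  obtain ⟨d, hd⟩ : ∃ d, d = 1 + ∑ i, (g i).natDegree := ⟨_, rfl⟩
  obtain ⟨B', hB'⟩ : ∃ B', B' = ∑ i, B i := ⟨_, rfl⟩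
  obtain ⟨C', hC'⟩ : ∃ C', C' = ∑ i, C i := ⟨_, rfl⟩
  have hdi : ∀ i, (g i).natDegree ≤ d := by
    intro i
    have := single_le_sum (f := fun i => (g i).natDegree) (fun i _ => Nat.zero_le _) (mem_univ i)
    omega
  have hBi : ∀ i, B i ≤ B' := by
    intro i
    rw [hB']
    exact single_le_sum (f := fun i => B i) (fun i _ => Nat.zero_le _) (mem_univ i)
  have hCi : ∀ i, C i ≤ C' := by
    intro i
    rw [hC']
    exact single_le_sum (f := fun i => C i) (fun i _ => hC0 i) (mem_univ i)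
  have hr : ∀ i, ∀ p : ℕ, p.Prime → B' < p → rho (g i) p ≤ d := fun i p hp h =>
    (hB i p hp (lt_of_le_of_lt (hBi i) h)).trans (hdi i)
  have hM1 : ∀ i, ∀ w : ℝ, 3 ≤ w → Real.log (Real.log w) - C' ≤ Sg (rho (g i)) w := by
    intro i w hw
    have := (abs_le.1 (hM i w hw)).1
    linarith [hCi i]
  have hM2 : ∀ i, ∀ w : ℝ, 3 ≤ w → Sg (rho (g i)) w ≤ Real.log (Real.log w) + C' := by
    intro i w hw
    have := (abs_le.1 (hM i w hw)).2
    linarith [hCi i]
  choose c₂ hc₂ Z₀ hZ₀ hRL using fun i => rough_lower (rho (g i)) d B' (hr i) C' (hM1 i)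
  have hC'0 : 0 ≤ C' := by rw [hC']; exact sum_nonneg fun i _ => hC0 i
  have hcmin : ∃ c₃ : ℝ, 0 < c₃ ∧ ∀ i, c₃ ≤ c₂ i := by
    rcases isEmpty_or_nonempty ι with h | h
    · exact ⟨1, one_pos, fun i => (h.false i).elim⟩
    · obtain ⟨i₀, hi₀⟩ := Finite.exists_min c₂
      exact ⟨c₂ i₀, hc₂ i₀, hi₀⟩
  obtain ⟨c₃, hc₃, hc₃i⟩ := hcmin
  obtain ⟨Z, hZd⟩ : ∃ Z, Z = 3 + ∑ i, Z₀ i := ⟨_, rfl⟩
  have hZi : ∀ i, Z₀ i ≤ Z := by
    intro i
    have := single_le_sum (f := fun i => Z₀ i) (fun i _ => by linarith [hZ₀ i]) (mem_univ i)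
    linarith
  have hZ3 : 3 ≤ Z := by
    have : 0 ≤ ∑ i, Z₀ i := sum_nonneg fun i _ => by linarith [hZ₀ i]
    linarith
  obtain ⟨c, hc, X₀, hcov⟩ := Pool.Agent.N201.MC.covering_multi (fun i => rho (g i)) d B' (by omega)
    hr C' hM1 c₃ Z hc₃ hZ3 (by
      intro i y z x h1 h2 h3
      refine le_trans ?_ (hRL i y z x ((hZi i).trans h1) h2 h3)
      have hx : 0 ≤ Real.log x := Real.log_nonneg (by linarith)
      have : c₃ * Real.log x * Real.exp (-(Sg (rho (g i)) y)) ≤
          c₂ i * Real.log x * Real.exp (-(Sg (rho (g i)) y)) := by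
        have := hc₃i i
        have := Real.exp_pos (-(Sg (rho (g i)) y))
        gcongr
      linarith) A hA
  have hAR : (0 : ℝ) < A := by
    have : 0 < A := by omega
    exact_mod_cast this
  obtain ⟨c', hc'⟩ : ∃ c', c' = c * Real.exp (-C') / A := ⟨_, rfl⟩
  have hc'0 : 0 < c' := by rw [hc']; positivity
  have t1 : Tendsto (fun Y : ℝ => Real.log Y) atTop atTop := Real.tendsto_log_atTop
  have t2 : Tendsto (fun Y : ℝ => Real.log (Real.log Y)) atTop atTop := t1.comp t1
  obtain ⟨X₁, hX₁⟩ := eventually_atTop.1 ((t1.eventually_ge_atTop (max 3 (B' : ℝ))).and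
    ((t2.eventually_ge_atTop (max 1 (10 * Real.log d))).and (eventually_ge_atTop (1 : ℝ))))
  refine ⟨c', hc'0, max X₀ X₁, fun X hX κ _ _ _ cl P hcard hrho hdis M₁ M₂ hM12 W hW hWp hWX r => ?_⟩
  obtain ⟨a1, a2, a3⟩ := hX₁ X ((le_max_right _ _).trans hX)
  have hX0 : 0 < X := by linarith
  obtain ⟨L, hL⟩ : ∃ L, L = Real.log X := ⟨_, rfl⟩
  rw [← hL] at hcard hrho hdis hWp a1 a2
  have hL3 : 3 ≤ L := (le_max_left _ _).trans a1
  have hLB : (B' : ℝ) ≤ L := (le_max_right _ _).trans a1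
  have hl1 : 1 ≤ Real.log L := (le_max_left _ _).trans a2
  have hld : 10 * Real.log d ≤ Real.log L := (le_max_right _ _).trans a2
  have hLpos : 0 < L := by linarith
  have hXexp : X = Real.exp L := by rw [hL, Real.exp_log hX0]
  have hXr : ∀ s : ℝ, X ^ s = Real.exp (s * L) := by
    intro s
    rw [hXexp, ← Real.exp_mul, mul_comm]
  have hLA : L ≤ L ^ A := le_self_pow₀ (by linarith) (by omega)
  have hWR : (0 : ℝ) < W := by exact_mod_cast hW
  obtain ⟨𝒜, h𝒜⟩ : ∃ 𝒜, 𝒜 = (Finset.Ioc M₁ M₂).filter (fun a : ℤ => (W : ℤ) ∣ a - r) := ⟨_, rfl⟩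
  obtain ⟨N, hN⟩ : ∃ N, N = ((M₂ : ℝ) - M₁) / W := ⟨_, rfl⟩
  have hNge : X ^ (1 / 2 : ℝ) ≤ N := by
    rw [hN, le_div_iff₀ hWR]
    exact hWX
  obtain ⟨a, ha, hak⟩ := hcov X ((le_max_left _ _).trans hX) κ cl
    (by
      intro k
      rw [← hL]
      refine hcard.trans ?_
      have h1 := hM2 (cl k) (L ^ A) (by linarith)
      have h2 : Real.log (L ^ A) = A * Real.log L := Real.log_pow _ _
      rw [h2] at h1
      have h3 : Real.exp (-C') / (A * Real.log L) ≤ Real.exp (-(Sg (rho (g (cl k))) (L ^ A))) := by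
        have : Real.exp (-C') / (A * Real.log L) =
            Real.exp (-(Real.log (A * Real.log L) + C')) := by
          rw [neg_add, Real.exp_add, Real.exp_neg (Real.log _), Real.exp_log (by positivity)]
          field_simp
        rw [this]
        exact Real.exp_le_exp.2 (by linarith)
      have h4 : c' * L = c * L * Real.log L * (Real.exp (-C') / (A * Real.log L)) := by
        rw [hc']
        field_simp
      rw [h4]
      exact mul_le_mul_of_nonneg_left h3 (by positivity))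
    (fun p a k => (p : ℤ) ∣ (P k).eval a)
    (by
      intro p hp hpA _ a k l h1 h2
      rw [← hL] at hpA
      exact hdis p hp hpA a k l h1 h2)
    𝒜 N (Real.exp (1 / 10 * L)) hNge (Real.exp_pos _).le (by rw [hXr])
    (by
      intro T s hTX hT
      rw [← hL] at hT
      rw [hXr] at hTX
      have h1 := count_poly M₁ M₂ hM12 W hW r T (fun p hp => ⟨(hT p hp).1, hWp p (hT p hp).1 (hT p hp).2⟩)
        (fun p => P (s p))
      have h2 : 𝒜.filter (fun a => ∀ p ∈ T, (p : ℤ) ∣ (P (s p)).eval a) =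
          (Finset.Ioc M₁ M₂).filter (fun a : ℤ => (W : ℤ) ∣ a - r ∧
            ∀ p ∈ T, (p : ℤ) ∣ (P (s p)).eval a) := by
        rw [h𝒜, Finset.filter_filter]
      have e1 : ∏ p ∈ T, (rho (P (s p)) p : ℝ) / (p : ℝ) =
          ∏ p ∈ T, (rho (g (cl (s p))) p : ℝ) / (p : ℝ) := by
        apply prod_congr rfl
        intro p hp
        rw [hrho (s p) p (hT p hp).1 (hT p hp).2]
      rw [e1, ← h2, ← hN] at h1
      refine le_trans (le_of_eq (by congr!)) (h1.trans ?_)
      -- the error term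
      have h3 : ∏ p ∈ T, (rho (P (s p)) p : ℝ) ≤ ∏ p ∈ T, (d : ℝ) := by
        apply Finset.prod_le_prod
        · intro p _; positivity
        · intro p hp
          rw [hrho (s p) p (hT p hp).1 (hT p hp).2]
          have : B' < p := by
            have : (B' : ℝ) < p := by linarith [(hT p hp).2]
            exact_mod_cast this
          exact_mod_cast hr _ p (hT p hp).1 this
      refine h3.trans ?_
      rw [prod_const]
      have h4 : L ^ T.card ≤ ∏ p ∈ T, (p : ℝ) := by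
        have : L ^ T.card = ∏ p ∈ T, L := by rw [Finset.prod_const]
        rw [this]
        exact Finset.prod_le_prod (fun _ _ => hLpos.le) (fun p hp => by linarith [(hT p hp).2])
      have h5 : (T.card : ℝ) * Real.log L ≤ 1 / 4 * L := by
        have h6 := Real.log_le_log (by positivity) (h4.trans hTX)
        rw [Real.log_pow, Real.log_exp] at h6
        exact h6
      have hdR : (1 : ℝ) ≤ d := by
        have : 1 ≤ d := by omega
        exact_mod_cast this
      have h6 : (d : ℝ) ^ T.card = Real.exp (T.card * Real.log d) := by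
        rw [Real.exp_nat_mul, Real.exp_log (by linarith)]
      rw [h6]
      apply Real.exp_le_exp.mpr
      have h7 : (T.card : ℝ) * (10 * Real.log d) ≤ T.card * Real.log L :=
        mul_le_mul_of_nonneg_left hld (Nat.cast_nonneg _)
      linarith)
  rw [h𝒜, mem_filter, mem_Ioc] at ha
  refine ⟨a, ha.1.1, ha.1.2, ha.2, fun k => ?_⟩
  obtain ⟨p, hp, _, hpX, hpd⟩ := hak k
  exact ⟨p, hp, hpX, hpd⟩

end Pool.Agent.L7h34.DF
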