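import Pool.Agent.L7h34.DF.Pre
import Pool.Agent.L7h34.DF.Eng

set_option autoImplicit false

/-! # Record prime gaps thicken to prime-free discs -/

namespace Pool.Agent.L7h34.DF

open Finset Filter Polynomial
open Pool.Agent.H474R2.PG (PR Sg rho)
open Pool.Agent.H256R2.SC (ff)

/-- every admissible colour is divisible by a small prime at `n` -/
theorem main (D : ℕ) : ∃ c : ℝ, 0 < c ∧ ∃ X₀ : ℝ, ∀ X : ℝ, X₀ ≤ X → ∀ M : ℕ,
    ∃ n : ℕ, (M : ℝ) + X / 2 < n ∧ (n : ℝ) ≤ M + X ∧ 4 * c * ff X ≤ X / 4 ∧ X ^ (1 / 10 : ℝ) ≤ X / 100 ∧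
      1 ≤ c * ff X ∧ 100 ≤ X ∧
      ∀ k, Val D ⌊c * ff X⌋₊ k → ∃ p : ℕ, p.Prime ∧ (p : ℝ) ≤ X ^ (1 / 10 : ℝ) ∧
        (p : ℤ) ∣ (CP k).eval (n : ℤ) := by
  classical
  obtain ⟨c₁, hc₁, X₁, heng⟩ := engine (ι := Fin (D + 1)) (fun i => gP i.1)
    (fun i => gP_irreducible i.1) (fun i => gP_natDegree i.1) 5 (by norm_num)
  obtain ⟨C, hC, y₀, hpre⟩ := presieve D
  obtain ⟨c, hc, X₂, hana⟩ := Pool.Agent.N201.SQ.An.ana (c := c₁) (C := C) (y₀ := max y₀ 1000) hc₁ hC
  have t1 : Tendsto (fun Y : ℝ => Real.log Y) atTop atTop := Real.tendsto_log_atTop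
  have hev : ∀ᶠ X : ℝ in atTop, X ^ (1 / 10 : ℝ) ≤ X / 100 ∧ (100 ≤ X ∧ (Real.log X) ^ 2 ≤ X / 10000) ∧
      4 * c * ff X ≤ X / 4 := by
    have e2 := (tendsto_rpow_atTop (show (0 : ℝ) < 9 / 10 by norm_num)).eventually_ge_atTop (100 : ℝ)
    have e3 : (fun X : ℝ => (Real.log X) ^ (4 : ℝ)) =o[atTop] (fun X : ℝ => X ^ (1 : ℝ)) :=
      isLittleO_log_rpow_rpow_atTop 4 (by norm_num)
    have e4 := e3.def (show (0 : ℝ) < 1 / (16 * (c + 1) * 10000) by positivity)
    have t2 : Tendsto (fun Y : ℝ => Real.log (Real.log Y)) atTop atTop := t1.comp t1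
    have t3 : Tendsto (fun Y : ℝ => Real.log (Real.log (Real.log Y))) atTop atTop := t1.comp t2
    have t4 : Tendsto (fun Y : ℝ => Real.log (Real.log (Real.log (Real.log Y)))) atTop atTop :=
      t1.comp t3
    filter_upwards [e2, e4, eventually_ge_atTop (100 : ℝ), t1.eventually_ge_atTop 1,
      t2.eventually_ge_atTop 1, t3.eventually_ge_atTop 1, t4.eventually_ge_atTop 1]
      with X h1 h2 h3 h4 h5 h6 h7
    have hX0 : (0 : ℝ) < X := by linarith
    have h1' : X ^ (1 / 10 : ℝ) ≤ X / 100 := by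
      have h0 : X = X ^ (1 / 10 : ℝ) * X ^ (9 / 10 : ℝ) := by
        rw [← Real.rpow_add hX0]
        norm_num
      have h0' : 0 ≤ X ^ (1 / 10 : ℝ) := by positivity
      have h0'' : X ^ (1 / 10 : ℝ) * 100 ≤ X ^ (1 / 10 : ℝ) * X ^ (9 / 10 : ℝ) :=
        mul_le_mul_of_nonneg_left h1 h0'
      rw [← h0] at h0''
      linarith
    have h44 : (Real.log X) ^ (4 : ℝ) = (Real.log X) ^ 4 := by
      rw [← Real.rpow_natCast]; norm_num
    rw [h44, Real.norm_of_nonneg (by positivity), Real.rpow_one, Real.norm_of_nonneg hX0.le] at h2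
    have h8 : (Real.log X) ^ 2 ≤ (Real.log X) ^ 4 := pow_le_pow_right₀ h4 (by norm_num)
    have h9 : (Real.log X) ^ 4 * (16 * (c + 1) * 10000) ≤ X := by
      rw [div_mul_eq_mul_div, one_mul, le_div_iff₀ (by positivity)] at h2
      exact h2
    have h10 : 0 ≤ (Real.log X) ^ 4 := by positivity
    refine ⟨h1', ⟨h3, ?_⟩, ?_⟩
    · have : (Real.log X) ^ 4 * 10000 ≤ X := by nlinarith
      linarith
    · have h11 : ff X ≤ (Real.log X) ^ 4 := by
        unfold ff
        have a1 : Real.log (Real.log X) ≤ Real.log X := by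
          have := Real.log_le_sub_one_of_pos (show 0 < Real.log X by linarith)
          linarith
        have a2 : Real.log (Real.log (Real.log X)) ≤ Real.log (Real.log X) := by
          have := Real.log_le_sub_one_of_pos (show 0 < Real.log (Real.log X) by linarith)
          linarith
        have a3 : Real.log (Real.log (Real.log (Real.log X))) ≤ Real.log (Real.log (Real.log X)) := by
          have := Real.log_le_sub_one_of_pos (show 0 < Real.log (Real.log (Real.log X)) by linarith)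
          linarith
        rw [div_le_iff₀ (by positivity)]
        calc Real.log X * (Real.log (Real.log X)) ^ 2 * Real.log (Real.log (Real.log (Real.log X)))
            ≤ Real.log X * (Real.log X) ^ 2 * Real.log X := by
              have a4 : Real.log (Real.log (Real.log (Real.log X))) ≤ Real.log X := a3.trans (a2.trans a1)
              have a5 : 0 ≤ Real.log X := by linarith
              have a6 : 0 ≤ Real.log (Real.log X) := by linarith
              exact mul_le_mul (mul_le_mul_of_nonneg_left (pow_le_pow_left₀ a6 a1 2) a5) a4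
                (by linarith) (by positivity)
          _ = (Real.log X) ^ 4 * 1 := by ring
          _ ≤ (Real.log X) ^ 4 * (Real.log (Real.log (Real.log X))) ^ 2 := by
              gcongr
              exact one_le_pow₀ h6
      have h12 : 4 * c * ff X ≤ 4 * c * (Real.log X) ^ 4 := by gcongr
      have h13 : 0 ≤ c * (Real.log X) ^ 4 := by positivity
      nlinarith
  obtain ⟨X₃, hX₃⟩ := eventually_atTop.1 hev
  refine ⟨c, hc, max X₁ (max X₂ X₃), fun X hX M => ?_⟩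
  have m1 : X₁ ≤ X := (le_max_left _ _).trans hX
  have m2 : X₂ ≤ X := (le_max_left _ _).trans ((le_max_right _ _).trans hX)
  have m3 : X₃ ≤ X := (le_max_right _ _).trans ((le_max_right _ _).trans hX)
  obtain ⟨T, hTd⟩ : ∃ T, T = ⌊c * ff X⌋₊ := ⟨_, rfl⟩
  obtain ⟨y, hyd⟩ : ∃ y, y = Real.log X / 10 := ⟨_, rfl⟩
  obtain ⟨a1, a2, a3, a4, a5, a6, a7, a8, a9, a10, a11, a12, a13, a14, a15, a16, a17⟩ :=
    hana X m2 y (c * ff X) hyd rfl T hTd
  obtain ⟨b1, ⟨b2, b3⟩, b4⟩ := hX₃ X m3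
  rw [← hTd]
  have hy1000 : 1000 ≤ y := (le_max_right _ _).trans a3
  have hy₀ : y₀ ≤ y := (le_max_left _ _).trans a3
  have hX0 : 0 < X := by linarith
  obtain ⟨L, hL⟩ : ∃ L, L = Real.log X := ⟨_, rfl⟩
  have hLy : L = 10 * y := by rw [hL, hyd]; ring
  have hT1 : 1 ≤ T := by
    have : (1 : ℝ) ≤ T := by linarith
    exact_mod_cast this
  have hXexp : X = Real.exp L := by rw [hL, Real.exp_log hX0]
  have hXr : ∀ s : ℝ, X ^ s = Real.exp (s * L) := by
    intro s
    rw [hXexp, ← Real.exp_mul, mul_comm]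
  have hyX : y ≤ X ^ (1 / 10 : ℝ) := by
    rw [hXr]
    have := Real.add_one_le_exp (1 / 10 * L)
    linarith
  have hp5 : ∀ p : ℕ, L ^ 5 < (p : ℝ) → 900 * T ^ 2 < p := by
    intro p hp
    have h1 : (T : ℝ) ≤ L ^ 2 := by rw [hL]; exact a9
    have h2 : (900 : ℝ) * T ^ 2 < p := by
      have h3 : (T : ℝ) ^ 2 ≤ (L ^ 2) ^ 2 := pow_le_pow_left₀ (Nat.cast_nonneg _) h1 2
      have h4 : (L ^ 2) ^ 2 * 900 ≤ L ^ 5 := by
        have : L ^ 5 = (L ^ 2) ^ 2 * L := by ring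
        rw [this]
        apply mul_le_mul_of_nonneg_left _ (by positivity)
        linarith
      linarith
    exact_mod_cast h2
  obtain ⟨n₀, hn₀⟩ := hpre y hy₀ T a5 a7
  obtain ⟨R, hR⟩ : ∃ R, R = (VS D T).filter (fun k => ∀ p : ℕ, p.Prime → (p : ℝ) ≤ y →
      ¬ (p : ℤ) ∣ (CP k).eval (n₀ : ℤ)) := ⟨_, rfl⟩
  have hRV : ∀ k ∈ R, Val D T k := by
    intro k hk
    rw [hR, mem_filter] at hk
    exact (mem_VS hT1).1 hk.1
  have hRc : (R.card : ℝ) ≤ c₁ * L := by
    rw [hL]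
    refine (hn₀ R hRV (fun k hk => ?_)).trans a8
    rw [hR, mem_filter] at hk
    exact hk.2
  obtain ⟨W, hW⟩ : ∃ W, W = primorial ⌊y⌋₊ := ⟨_, rfl⟩
  have hW1 : 1 ≤ W := by rw [hW]; exact primorial_pos _
  have hWR : (1 : ℝ) ≤ W := by exact_mod_cast hW1
  rw [← hW] at a11 a16
  have hWd : ∀ p : ℕ, p.Prime → (p : ℝ) ≤ y → p ∣ W := by
    intro p hp hpy
    rw [hW]
    unfold primorial
    apply dvd_prod_of_mem
    rw [mem_filter, mem_range]
    exact ⟨Nat.lt_succ_of_le (Nat.le_floor hpy), hp⟩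
  have hWnd : ∀ p : ℕ, p.Prime → y < (p : ℝ) → ¬ p ∣ W := by
    intro p hp hpy hd
    rw [hW] at hd
    unfold primorial at hd
    obtain ⟨q, hq, hq2⟩ := (Prime.dvd_finsetProd_iff hp.prime _).mp hd
    rw [mem_filter, mem_range] at hq
    have h1 : p = q := (Nat.prime_dvd_prime_iff_eq hp hq.2).mp hq2
    have h2 : (p : ℝ) ≤ ⌊y⌋₊ := by rw [h1]; exact_mod_cast Nat.lt_succ_iff.1 hq.1
    have h3 := Nat.floor_le a4
    linarith
  -- the interval
  obtain ⟨M₁, hM₁⟩ : ∃ M₁ : ℤ, M₁ = M + ⌈X / 2⌉ := ⟨_, rfl⟩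
  obtain ⟨M₂, hM₂⟩ : ∃ M₂ : ℤ, M₂ = M + ⌊X⌋ := ⟨_, rfl⟩
  have g1 : (⌈X / 2⌉ : ℝ) < X / 2 + 1 := Int.ceil_lt_add_one _
  have g2 : X / 2 ≤ (⌈X / 2⌉ : ℝ) := Int.le_ceil _
  have g3 : (⌊X⌋ : ℝ) ≤ X := Int.floor_le _
  have g4 : X - 1 < (⌊X⌋ : ℝ) := Int.sub_one_lt_floor _
  have hM₁r : (M₁ : ℝ) = M + (⌈X / 2⌉ : ℝ) := by rw [hM₁]; push_cast; rfl
  have hM₂r : (M₂ : ℝ) = M + (⌊X⌋ : ℝ) := by rw [hM₂]; push_cast; rfl
  have hlen : X / 2 - 2 ≤ (M₂ : ℝ) - M₁ := by rw [hM₁r, hM₂r]; linarith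
  have hM12 : M₁ ≤ M₂ := by
    have : (M₁ : ℝ) ≤ M₂ := by linarith
    exact_mod_cast this
  have hWX : X ^ (1 / 2 : ℝ) * W ≤ (M₂ : ℝ) - M₁ := by
    have h1 : X ^ (1 / 2 : ℝ) * (4 * W) ≤ X ^ (1 / 2 : ℝ) * X ^ (1 / 2 : ℝ) :=
      mul_le_mul_of_nonneg_left a11 (by positivity)
    have h2 : X ^ (1 / 2 : ℝ) * X ^ (1 / 2 : ℝ) = X := by
      rw [← Real.rpow_add hX0]; norm_num
    rw [h2] at h1
    linarith
  -- the integer
  have key : ∃ a : ℤ, M₁ < a ∧ a ≤ M₂ ∧ (W : ℤ) ∣ a - n₀ ∧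
      ∀ k ∈ R, ∃ p : ℕ, p.Prime ∧ (p : ℝ) ≤ X ^ (1 / 10 : ℝ) ∧ (p : ℤ) ∣ (CP k).eval a := by
    rcases R.eq_empty_or_nonempty with h | h
    · -- any integer of the class
      have h1 := Pool.Agent.H256R2.SC.count_ap M₁ M₂ hM12 W hW1 (n₀ : ℤ)
      have h2 : (1 : ℝ) < ((M₂ : ℝ) - M₁) / W := by
        rw [lt_div_iff₀ (by linarith), one_mul]
        refine lt_of_lt_of_le ?_ hWX
        have : (1 : ℝ) < X ^ (1 / 2 : ℝ) := Real.one_lt_rpow (by linarith) (by norm_num)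
        nlinarith
      have h3 := (abs_le.1 h1).1
      have h4 : 0 < ((Finset.Ioc M₁ M₂).filter (fun x => (W : ℤ) ∣ x - (n₀ : ℤ))).card := by
        have : (0 : ℝ) < (((Finset.Ioc M₁ M₂).filter (fun x => (W : ℤ) ∣ x - (n₀ : ℤ))).card : ℝ) := by
          linarith
        exact_mod_cast this
      obtain ⟨a, ha⟩ := card_pos.1 h4
      rw [mem_filter, mem_Ioc] at ha
      refine ⟨a, ha.1.1, ha.1.2, ha.2, fun k hk => ?_⟩
      rw [h] at hk
      exact absurd hk (notMem_empty k)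
    · have : Nonempty (↥R) := h.to_subtype
      have hcl : ∀ k : ↥R, k.1.1 < D + 1 := by
        intro k
        rcases hRV k.1 k.2 with h | h
        · rw [h.1]; omega
        · have := h.2.1
          omega
      obtain ⟨a, ha1, ha2, ha3, ha4⟩ := heng X m1 (↥R) (fun k => ⟨k.1.1, hcl k⟩) (fun k => CP k.1)
        (by rw [Fintype.card_coe, ← hL]; exact hRc)
        (by
          intro k p hp hpL
          rw [← hL] at hpL
          have hpT := hp5 p hpL
          dsimp only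
          rcases hRV k.1 k.2 with ⟨h1, h2, h3⟩ | ⟨h1, h2, h3, h4, h5, h6⟩
          · rw [h1, rho_gP_zero p hp]
            unfold CP
            rw [if_pos h1, rho_lin p hp]
          · obtain ⟨⟨d, t, b⟩, hk⟩ := k
            dsimp only at h1 h2 h3 h4 h5 h6 ⊢
            apply rho_quad p hp _ d (by omega) t b h5
            · intro hd
              have hb : b < p := by
                have hdz : (1 : ℤ) ≤ d := by exact_mod_cast h1
                have hTz : (1 : ℤ) ≤ T := by exact_mod_cast hT1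
                have h7 : (900 : ℤ) * T ^ 2 < p := by exact_mod_cast hpT
                nlinarith [sq_nonneg t]
              have := Int.le_of_dvd (by omega) hd
              omega
            · rintro rfl
              have : 1 ≤ T ^ 2 := Nat.one_le_pow _ _ hT1
              omega)
        (by
          intro p hp hpL a k l h1 h2
          rw [← hL] at hpL
          exact Subtype.ext (nocoll D T p hT1 (hp5 p hpL) a k.1 l.1 (hRV k.1 k.2) (hRV l.1 l.2) h1 h2))
        M₁ M₂ hM12 W hW1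
        (by
          intro p hp hpL
          rw [← hL] at hpL
          apply hWnd p hp
          have h1 : (1 : ℝ) ≤ L := by linarith
          have h2 : L ≤ L ^ 5 := le_self_pow₀ h1 (by norm_num)
          linarith)
        hWX (n₀ : ℤ)
      exact ⟨a, ha1, ha2, ha3, fun k hk => ha4 ⟨k, hk⟩⟩
  obtain ⟨a, ha1, ha2, ha3, ha4⟩ := key
  have haM : (M : ℝ) + X / 2 < a := by
    have : (M₁ : ℝ) < a := by exact_mod_cast ha1
    linarith
  have ha0 : 0 ≤ a := by
    have h1 : (0 : ℝ) ≤ (M : ℝ) := Nat.cast_nonneg M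
    have : (0 : ℝ) < a := by linarith
    exact_mod_cast this.le
  obtain ⟨n, rfl⟩ := Int.eq_ofNat_of_zero_le ha0
  refine ⟨n, by exact_mod_cast haM, ?_, b4, b1, ?_, b2, fun k hk => ?_⟩
  · have : ((n : ℤ) : ℝ) ≤ M₂ := by exact_mod_cast ha2
    rw [hM₂r] at this
    push_cast at this
    linarith
  · have : (1 : ℝ) ≤ T := by exact_mod_cast hT1
    linarith
  · by_cases hkR : k ∈ R
    · exact ha4 k hkR
    · rw [hR, mem_filter, not_and] at hkR
      have h1 := hkR ((mem_VS hT1).2 hk)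
      push Not at h1
      obtain ⟨p, hp, hpy, hpd⟩ := h1
      refine ⟨p, hp, hpy.trans hyX, ?_⟩
      have h2 : (p : ℤ) ∣ (n : ℤ) - n₀ := dvd_trans (by exact_mod_cast hWd p hp hpy) ha3
      exact (Pool.Agent.H474R2.PG.eval_dvd_congr (CP k) p _ _ h2).2 hpd

end Pool.Agent.L7h34.DF
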