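import Mathlib
import Pool.Agent.H398R2.RK.Count

set_option autoImplicit false

/-! # The sum of the divisor function over smooth numbers

Adapted from `Pool.Agent.H398R2.RK.Count` (helper398), where the smooth numbers are counted. -/

namespace Pool.Agent.L7h34.DF

open Finset Filter Pool.Agent.H398R2.RK Pool.Agent.H318R2.Cr

open scoped Classical

/-- logarithm of the smoothness bound -/
noncomputable def V0 (y : ℝ) : ℝ :=
  Real.log y * Real.log (Real.log (Real.log y)) / (10 * Real.log (Real.log y))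

theorem smooth_div : ∃ y₀ : ℝ, ∀ y : ℝ, y₀ ≤ y → ∀ L : ℕ, y ≤ L →
    ∑ m ∈ (Finset.Icc 1 L).filter (fun m => ∀ p : ℕ, p.Prime → p ∣ m → Real.log p ≤ V0 y),
      (m.divisors.card : ℝ) ≤ L / Real.log y := by
  obtain ⟨C, hC, hcore⟩ := euler_le
  obtain ⟨t₀, hev⟩ := ev_all C hC
  refine ⟨Real.exp (Real.exp t₀), fun y hy L hyL => ?_⟩
  have hy0 : 0 < y := (Real.exp_pos _).trans_le hy
  have hL1' : Real.exp t₀ ≤ Real.log y := by
    rw [← Real.log_exp (Real.exp t₀)]; exact Real.log_le_log (Real.exp_pos _) hy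
  have hly : 0 < Real.log y := (Real.exp_pos _).trans_le hL1'
  unfold V0
  set t := Real.log (Real.log y) with ht
  have htt : t₀ ≤ t := by
    rw [← Real.log_exp t₀]; exact Real.log_le_log (Real.exp_pos _) hL1'
  obtain ⟨h1, h2, h3, h4⟩ := hev t htt
  have hLe : Real.log y = Real.exp t := by rw [ht, Real.exp_log hly]
  set V0 := Real.log y * Real.log t / (10 * t) with hV0
  have ht0 : 0 < t := by linarith
  have hV1 : 1 ≤ V0 := by
    rw [hV0, le_div_iff₀ (by positivity), hLe]
    nlinarith [Real.exp_pos t]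
  set v : ℕ := ⌊Real.exp V0⌋₊ with hv
  have hv2 : 2 ≤ v := by
    rw [hv, Nat.le_floor_iff (Real.exp_pos _).le]
    have := Real.add_one_le_exp V0
    push_cast; linarith
  have hvle : (v : ℝ) ≤ Real.exp V0 := Nat.floor_le (Real.exp_pos _).le
  have hv0 : (0 : ℝ) < v := by exact_mod_cast (by omega : 0 < v)
  have hlv : Real.log v ≤ V0 := by
    rw [← Real.log_exp V0]; exact Real.log_le_log hv0 hvle
  have hlv0 : 0 ≤ Real.log v := Real.log_nonneg (by exact_mod_cast (by omega : 1 ≤ v))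
  set η : ℝ := 5 * t / Real.log y with hη
  have hη0 : 0 ≤ η := by positivity
  have hη1 : η ≤ 1 / 4 := by
    rw [hη, div_le_iff₀ hly, hLe]; linarith
  have hc := hcore η v hη0 hη1 hv2
  have hsub : (Finset.Icc 1 L).filter (fun m => ∀ p : ℕ, p.Prime → p ∣ m →
      Real.log p ≤ V0) ⊆ (Icc 1 L).filter (fun n => ∀ p : ℕ, p.Prime → p ∣ n → p ≤ v) := by
    intro m hm
    rw [mem_filter] at hm ⊢
    refine ⟨hm.1, fun p hp hd => ?_⟩
    rw [hv, Nat.le_floor_iff (Real.exp_pos _).le]
    have hp0 : (0 : ℝ) < p := by exact_mod_cast hp.pos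
    rw [← Real.log_le_iff_le_exp hp0]
    exact hm.2 p hp hd
  obtain ⟨S, hS⟩ : ∃ S, S = (Icc 1 L).filter (fun n => ∀ p : ℕ, p.Prime → p ∣ n → p ≤ v) :=
    ⟨_, rfl⟩
  rw [← hS] at hsub
  have hL0 : (0 : ℝ) < L := hy0.trans_le hyL
  -- the sum of `n^(-(1-η))`
  have hts := smooth_tsum (σ := 1 - η) (by linarith) v L
  rw [← hS] at hts
  have k2 : (v : ℝ) ^ η ≤ Real.sqrt t := by
    have e1 : Real.sqrt t = Real.exp (Real.log t / 2) := by
      rw [Real.sqrt_eq_rpow, Real.rpow_def_of_pos ht0]; ring_nf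
    rw [e1]
    calc (v : ℝ) ^ η ≤ (Real.exp V0) ^ η := Real.rpow_le_rpow hv0.le hvle hη0
      _ = Real.exp (V0 * η) := by rw [← Real.exp_mul]
      _ = _ := by
        congr 1
        rw [hV0, hη]
        field_simp
        ring
  have hlt0 : 0 ≤ Real.log t := by linarith
  have k3 : 4 * η * (v : ℝ) ^ η * (Real.log v + C) ≤
      2 * Real.sqrt t * Real.log t + 20 * C * t * Real.sqrt t / Real.exp t := by
    calc 4 * η * (v : ℝ) ^ η * (Real.log v + C) ≤ 4 * η * Real.sqrt t * (V0 + C) := by gcongr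
      _ = _ := by
        rw [hV0, hη, hLe]
        have := Real.exp_pos t
        field_simp
        ring
  have k4 : C * Real.log v ≤ C * Real.exp t := by
    gcongr
    refine hlv.trans ?_
    rw [hV0, hLe, div_le_iff₀ (by positivity)]
    have : Real.log t ≤ t := (Real.log_le_sub_one_of_pos ht0).trans (by linarith)
    nlinarith [Real.exp_pos t]
  have k5 : C * Real.exp (2 * Real.sqrt t * Real.log t + 20 * C * t * Real.sqrt t / Real.exp t) ≤
      Real.exp t := by
    have e1 : C = Real.exp (Real.log C) := (Real.exp_log hC).symm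
    calc C * Real.exp (2 * Real.sqrt t * Real.log t + 20 * C * t * Real.sqrt t / Real.exp t)
        = Real.exp (Real.log C + (2 * Real.sqrt t * Real.log t + 20 * C * t * Real.sqrt t / Real.exp t)) := by
          rw [Real.exp_add (Real.log C), Real.exp_log hC]
      _ ≤ _ := by
          apply Real.exp_le_exp.2; linarith
  have hsum : ∑ n ∈ S, (n : ℝ) ^ (-(1 - η)) ≤ Real.exp (2 * t) := by
    refine hts.trans (hc.trans ?_)
    calc C * Real.log v * Real.exp (4 * η * (v : ℝ) ^ η * (Real.log v + C))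
        ≤ C * Real.exp t *
          Real.exp (2 * Real.sqrt t * Real.log t + 20 * C * t * Real.sqrt t / Real.exp t) := by
            gcongr
      _ = Real.exp t * (C *
          Real.exp (2 * Real.sqrt t * Real.log t + 20 * C * t * Real.sqrt t / Real.exp t)) := by ring
      _ ≤ Real.exp t * Real.exp t := by gcongr
      _ = Real.exp (2 * t) := by rw [← Real.exp_add]; congr 1; ring
  have hsum0 : 0 ≤ ∑ n ∈ S, (n : ℝ) ^ (-(1 - η)) := sum_nonneg fun n _ => by positivity
  -- the divisor sum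
  have hdiv : ∑ n ∈ S, (n.divisors.card : ℝ) * (n : ℝ) ^ (-(1 - η)) ≤
      (∑ n ∈ S, (n : ℝ) ^ (-(1 - η))) ^ 2 := by
    have e1 : ∀ n ∈ S, (n.divisors.card : ℝ) * (n : ℝ) ^ (-(1 - η)) =
        ∑ x ∈ n.divisorsAntidiagonal, (x.1 : ℝ) ^ (-(1 - η)) * (x.2 : ℝ) ^ (-(1 - η)) := by
      intro n _
      have : ∑ x ∈ n.divisorsAntidiagonal, (x.1 : ℝ) ^ (-(1 - η)) * (x.2 : ℝ) ^ (-(1 - η)) =
          ∑ x ∈ n.divisorsAntidiagonal, (n : ℝ) ^ (-(1 - η)) := by
        apply sum_congr rfl
        intro x hx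
        have h := (Nat.mem_divisorsAntidiagonal.1 hx).1
        rw [← Real.mul_rpow (by positivity) (by positivity)]
        congr 1
        exact_mod_cast h
      rw [this, sum_const, nsmul_eq_mul]
      congr 2
      rw [← Nat.map_div_right_divisors, card_map]
    rw [sum_congr rfl e1, sq, sum_mul_sum, ← sum_product', ← sum_biUnion]
    · apply sum_le_sum_of_subset_of_nonneg
      · intro x hx
        rw [mem_biUnion] at hx
        obtain ⟨n, hn, hx⟩ := hx
        obtain ⟨h5, h6⟩ := Nat.mem_divisorsAntidiagonal.1 hx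
        rw [hS, mem_filter, mem_Icc] at hn
        have hx1 : x.1 ∣ n := Dvd.intro _ h5
        have hx2 : x.2 ∣ n := Dvd.intro_left _ h5
        have hn0 : 0 < n := hn.1.1
        rw [mem_product, hS, mem_filter, mem_filter, mem_Icc, mem_Icc]
        exact ⟨⟨⟨Nat.pos_of_dvd_of_pos hx1 hn0, (Nat.le_of_dvd hn0 hx1).trans hn.1.2⟩,
          fun p hp hd => hn.2 p hp (hd.trans hx1)⟩,
          ⟨⟨Nat.pos_of_dvd_of_pos hx2 hn0, (Nat.le_of_dvd hn0 hx2).trans hn.1.2⟩,
          fun p hp hd => hn.2 p hp (hd.trans hx2)⟩⟩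
      · intro x _ _
        positivity
    · intro a _ b _ hab
      change Disjoint a.divisorsAntidiagonal b.divisorsAntidiagonal
      rw [Finset.disjoint_left]
      intro x hx hy
      exact hab ((Nat.mem_divisorsAntidiagonal.1 hx).1.symm.trans
        (Nat.mem_divisorsAntidiagonal.1 hy).1)
  calc ∑ m ∈ (Finset.Icc 1 L).filter (fun m => ∀ p : ℕ, p.Prime → p ∣ m → Real.log p ≤ V0),
      (m.divisors.card : ℝ) ≤ ∑ m ∈ S, (m.divisors.card : ℝ) :=
        sum_le_sum_of_subset_of_nonneg hsub fun _ _ _ => Nat.cast_nonneg _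
    _ ≤ ∑ n ∈ S, (L : ℝ) ^ (1 - η) * ((n.divisors.card : ℝ) * (n : ℝ) ^ (-(1 - η))) := by
        apply sum_le_sum
        intro n hn
        rw [hS, mem_filter, mem_Icc] at hn
        have hn0 : (0 : ℝ) < n := by exact_mod_cast hn.1.1
        have hnL : (n : ℝ) ≤ L := by exact_mod_cast hn.1.2
        have h7 : 1 ≤ (L : ℝ) ^ (1 - η) * (n : ℝ) ^ (-(1 - η)) := by
          rw [Real.rpow_neg hn0.le, ← div_eq_mul_inv, one_le_div (by positivity)]
          exact Real.rpow_le_rpow hn0.le hnL (by linarith)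
        have h8 : (0 : ℝ) ≤ n.divisors.card := Nat.cast_nonneg _
        nlinarith
    _ = (L : ℝ) ^ (1 - η) * ∑ n ∈ S, (n.divisors.card : ℝ) * (n : ℝ) ^ (-(1 - η)) := by
        rw [mul_sum]
    _ ≤ (L * Real.exp (-(5 * t))) * (Real.exp (2 * t)) ^ 2 := by
        have k1 : (L : ℝ) ^ (1 - η) ≤ L * Real.exp (-(5 * t)) := by
          rw [Real.rpow_sub hL0, Real.rpow_one, div_eq_mul_inv]
          apply mul_le_mul_of_nonneg_left _ hL0.le
          rw [Real.exp_neg]
          apply inv_anti₀ (Real.exp_pos _)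
          have : Real.exp (5 * t) = y ^ η := by
            rw [Real.rpow_def_of_pos hy0, hη]; congr 1; field_simp
          rw [this]
          exact Real.rpow_le_rpow hy0.le hyL hη0
        apply mul_le_mul k1 _ (sum_nonneg fun n _ =>
          mul_nonneg (Nat.cast_nonneg _) (Real.rpow_nonneg (Nat.cast_nonneg _) _))
          (mul_nonneg hL0.le (Real.exp_pos _).le)
        exact hdiv.trans (pow_le_pow_left₀ hsum0 hsum 2)
    _ = L / Real.log y := by
        rw [hLe, ← Real.exp_nat_mul, mul_assoc, ← Real.exp_add, div_eq_mul_inv, ← Real.exp_neg]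
        congr 2
        push_cast; ring

end Pool.Agent.L7h34.DF
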