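import Mathlib
import Pool.Agent.L7h34.DF.Smooth
import Pool.Agent.H398R2.RK.Surv
import Pool.Agent.Helper256.KM.Mertens
import Pool.Agent.H474R2.PG.Defs

set_option autoImplicit false

/-! # The sum of the divisor function over the integers left by Rankin's choice -/

namespace Pool.Agent.L7h34.DF

open Finset Filter
open Pool.Agent.H474R2.PG (PR)

theorem mem_PR {w : ℝ} (hw : 0 ≤ w) {p : ℕ} : p ∈ PR w ↔ p.Prime ∧ (p : ℝ) ≤ w := by
  unfold PR
  rw [mem_filter, mem_Icc, Nat.le_floor_iff hw]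
  constructor
  · rintro ⟨⟨_, h⟩, hp⟩; exact ⟨hp, h⟩
  · rintro ⟨hp, h⟩; exact ⟨⟨hp.one_lt.le, h⟩, hp⟩

theorem mert1 : ∃ C : ℝ, 0 ≤ C ∧ ∀ w : ℝ, 3 ≤ w →
    |∑ p ∈ PR w, (1 : ℝ) / p - Real.log (Real.log w)| ≤ C := by
  obtain ⟨C, hC⟩ := Pool.Agent.Helper256.KM.mertens_inv
  have hC0 : 0 ≤ C := (abs_nonneg _).trans (hC 3 le_rfl)
  refine ⟨C + 1, by linarith, fun w hw => ?_⟩
  have hn : 3 ≤ ⌊w⌋₊ := Nat.le_floor (by exact_mod_cast hw)
  have h1 := hC ⌊w⌋₊ hn
  have h3 : (3 : ℝ) ≤ (⌊w⌋₊ : ℝ) := by exact_mod_cast hn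
  have hfl : (⌊w⌋₊ : ℝ) ≤ w := Nat.floor_le (by linarith)
  have hfl2 : w < ⌊w⌋₊ + 1 := Nat.lt_floor_add_one w
  have hl1 : 1 < Real.log (⌊w⌋₊ : ℝ) := by
    rw [Real.lt_log_iff_exp_lt (by linarith)]
    have := Real.exp_one_lt_d9
    linarith
  have a1 : Real.log (Real.log (⌊w⌋₊ : ℝ)) ≤ Real.log (Real.log w) :=
    Real.log_le_log (by linarith) (Real.log_le_log (by linarith) hfl)
  have a2 : Real.log (Real.log w) ≤ Real.log (Real.log (⌊w⌋₊ : ℝ)) + 1 := by
    have b1 : Real.log w ≤ 2 * Real.log (⌊w⌋₊ : ℝ) := by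
      have : w ≤ (⌊w⌋₊ : ℝ) ^ 2 := by nlinarith
      have h5 := Real.log_le_log (by linarith) this
      rwa [Real.log_pow] at h5
    have b2 := Real.log_le_log (by linarith [Real.log_le_log (by linarith) hfl]) b1
    rw [Real.log_mul (by norm_num) (by linarith)] at b2
    have := Real.log_two_lt_d9
    linarith
  have e : ∑ p ∈ PR w, (1 : ℝ) / p = ∑ p ∈ (Finset.Icc 1 ⌊w⌋₊).filter Nat.Prime, (1 : ℝ) / p := rfl
  rw [e]
  rw [abs_le] at h1 ⊢
  constructor <;> linarith [h1.1, h1.2]

open scoped Classical in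
/-- the integers without prime factors that are at most `log y` or between `exp (V0 y)` and `y` -/
noncomputable def NN (y : ℝ) (T : ℕ) : Finset ℕ :=
  (Icc 1 T).filter (fun N => ∀ p : ℕ, p.Prime → p ∣ N →
    (Real.log y < p ∧ Real.log p ≤ V0 y) ∨ y < p)

theorem mem_NN {y : ℝ} {T N : ℕ} : N ∈ NN y T ↔ (1 ≤ N ∧ N ≤ T) ∧ ∀ p : ℕ, p.Prime → p ∣ N →
    (Real.log y < p ∧ Real.log p ≤ V0 y) ∨ y < p := by
  classical
  unfold NN
  simp only [mem_filter, mem_Icc]

theorem sum_biUnion_le' {α β : Type} [DecidableEq α] [DecidableEq β] (s : Finset α)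
    (t : α → Finset β) (f : β → ℝ) (hf : ∀ b, 0 ≤ f b) :
    ∑ b ∈ s.biUnion t, f b ≤ ∑ a ∈ s, ∑ b ∈ t a, f b := by
  induction s using Finset.induction_on with
  | empty => simp
  | insert a s ha ih =>
    rw [biUnion_insert, sum_insert ha]
    have h := sum_union_inter (s₁ := t a) (s₂ := s.biUnion t) (f := f)
    have h0 : 0 ≤ ∑ b ∈ t a ∩ s.biUnion t, f b := sum_nonneg fun b _ => hf b
    linarith

theorem med : ∃ C : ℝ, 0 < C ∧ ∃ y₀ : ℝ, ∀ y : ℝ, y₀ ≤ y → ∀ T : ℕ, y ≤ T →
    (T : ℝ) ≤ y * (Real.log y) ^ 2 →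
    ∑ N ∈ NN y T, (N.divisors.card : ℝ) ≤ C * T / Real.log y := by
  classical
  obtain ⟨y₁, hsm⟩ := smooth_div
  obtain ⟨C, hC0, hM⟩ := mert1
  have hev : ∀ᶠ y : ℝ in atTop, 3 ≤ Real.log y ∧ (Real.log y) ^ 2 ≤ y ∧ 3 ≤ y := by
    have e1 := Real.isLittleO_pow_log_id_atTop (n := 2)
    have e2 := e1.def (show (0 : ℝ) < 1 by norm_num)
    filter_upwards [Real.tendsto_log_atTop.eventually_ge_atTop 3, e2, eventually_ge_atTop (3 : ℝ)]
      with y h1 h2 h3
    refine ⟨h1, ?_, h3⟩
    rw [Real.norm_of_nonneg (by positivity), one_mul, id, Real.norm_of_nonneg (by linarith)] at h2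
    exact h2
  obtain ⟨y₂, hy₂⟩ := eventually_atTop.1 hev
  refine ⟨1 + 40 * (2 + 2 * C), by positivity, max y₁ y₂, fun y hy T hyT hT => ?_⟩
  obtain ⟨l1, l2, l3⟩ := hy₂ y ((le_max_right _ _).trans hy)
  have hly : 0 < Real.log y := by linarith
  have hsm1 := hsm y ((le_max_left _ _).trans hy) T hyT
  have hT0 : (0 : ℝ) < T := by linarith
  -- the primes of the cofactor
  obtain ⟨u, hu⟩ : ∃ u, u = Real.log y := ⟨_, rfl⟩
  obtain ⟨Q, hQ⟩ : ∃ Q, Q = (PR (u ^ 2)).filter (fun p : ℕ => u < (p : ℝ)) := ⟨_, rfl⟩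
  obtain ⟨M, hMd⟩ : ∃ M, M = insert 1 Q := ⟨_, rfl⟩
  have hMsum : ∑ m ∈ M, (1 : ℝ) / m ≤ 2 + 2 * C := by
    have h1Q : (1 : ℕ) ∉ Q := by
      rw [hQ, mem_filter, mem_PR (by positivity)]
      intro h
      exact Nat.not_prime_one h.1.1
    rw [hMd, sum_insert h1Q]
    have e1 : ∑ p ∈ Q, (1 : ℝ) / p = ∑ p ∈ PR (u ^ 2), (1 : ℝ) / p - ∑ p ∈ PR u, (1 : ℝ) / p := by
      rw [← sum_filter_add_sum_filter_not (PR (u ^ 2)) (fun p : ℕ => u < (p : ℝ)), ← hQ]
      have : (PR (u ^ 2)).filter (fun p : ℕ => ¬ u < (p : ℝ)) = PR u := by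
        ext p
        rw [mem_filter, mem_PR (by positivity), mem_PR (by linarith), not_lt]
        constructor
        · rintro ⟨⟨h1, _⟩, h3⟩; exact ⟨h1, h3⟩
        · rintro ⟨h1, h3⟩; exact ⟨⟨h1, by nlinarith⟩, h3⟩
      rw [this]; ring
    have a1 := (abs_le.1 (hM (u ^ 2) (by nlinarith))).2
    have a2 := (abs_le.1 (hM u (by linarith))).1
    have a3 : Real.log (Real.log (u ^ 2)) = Real.log 2 + Real.log (Real.log u) := by
      rw [Real.log_pow]
      push_cast
      rw [Real.log_mul (by norm_num)]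
      have : 0 < Real.log u := Real.log_pos (by linarith)
      exact this.ne'
    have := Real.log_two_lt_d9
    rw [e1]
    push_cast
    linarith
  -- the large primes
  obtain ⟨PP, hPP⟩ : ∃ PP : ℕ → Finset ℕ, PP = fun m => ((Icc 1 (T / m)).filter Nat.Prime).filter
    (fun q : ℕ => y < (q : ℝ)) := ⟨_, rfl⟩
  have hPPc : ∀ m ∈ M, ((PP m).card : ℝ) ≤ 10 * (T / m) / Real.log y := by
    intro m hm
    have hm1 : 1 ≤ m := by
      rw [hMd, mem_insert, hQ, mem_filter, mem_PR (by positivity)] at hm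
      rcases hm with rfl | h
      · exact le_rfl
      · exact h.1.1.one_lt.le
    have hmR : (0 : ℝ) < m := by exact_mod_cast hm1
    rcases (PP m).eq_empty_or_nonempty with h | ⟨q, hq⟩
    · rw [h, card_empty]
      push_cast
      positivity
    · rw [hPP] at hq
      dsimp only at hq
      rw [mem_filter, mem_filter, mem_Icc] at hq
      have hq1 : (q : ℝ) ≤ ((T / m : ℕ) : ℝ) := by exact_mod_cast hq.1.1.2
      have hTm : y < ((T / m : ℕ) : ℝ) := lt_of_lt_of_le hq.2 hq1
      have h2 : 2 ≤ T / m := by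
        have : (2 : ℝ) ≤ ((T / m : ℕ) : ℝ) := by linarith
        exact_mod_cast this
      have h3 := Pool.Agent.H398R2.RK.primes_le (T / m) h2
      have h4 : ((PP m).card : ℝ) ≤ (((Icc 1 (T / m)).filter Nat.Prime).card : ℝ) := by
        rw [hPP]
        exact_mod_cast card_filter_le _ _
      have h5 : ((T / m : ℕ) : ℝ) ≤ (T : ℝ) / m := Nat.cast_div_le
      have h6 : Real.log y ≤ Real.log ((T / m : ℕ) : ℝ) := Real.log_le_log (by linarith) hTm.le
      refine h4.trans (h3.trans ?_)
      apply div_le_div₀ (by positivity) (by linarith) hly h6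
  -- the decomposition
  have hsub : NN y T ⊆ ((Finset.Icc 1 T).filter (fun m => ∀ p : ℕ, p.Prime → p ∣ m →
      Real.log p ≤ V0 y)) ∪ M.biUnion (fun m => (PP m).image (fun q => m * q)) := by
    intro N hN
    rw [mem_NN] at hN
    obtain ⟨⟨hN1, hN2⟩, hN3⟩ := hN
    by_cases hbig : ∃ q : ℕ, q.Prime ∧ q ∣ N ∧ y < q
    · apply mem_union_right
      obtain ⟨q, hq, ⟨m, rfl⟩, hyq⟩ := hbig
      have hq0 : 0 < q := hq.pos
      have hm0 : 0 < m := by
        rcases Nat.eq_zero_or_pos m with h | h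
        · rw [h] at hN1; simp at hN1
        · exact h
      have hmR : (0 : ℝ) < m := by exact_mod_cast hm0
      have hmlt : (m : ℝ) < u ^ 2 := by
        have h1 : (q : ℝ) * m ≤ T := by exact_mod_cast hN2
        have h2 : y * m < q * m := mul_lt_mul_of_pos_right hyq hmR
        have h3 : y * m < y * u ^ 2 := by rw [hu]; linarith
        exact lt_of_mul_lt_mul_left h3 (by linarith)
      have hpr : ∀ p : ℕ, p.Prime → p ∣ m → u < p := by
        intro p hp hd
        rcases hN3 p hp (hd.mul_left q) with h | h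
        · rw [hu]; exact h.1
        · rw [hu]
          have := Real.log_le_sub_one_of_pos (show 0 < y by linarith)
          linarith
      have hmM : m ∈ M := by
        rw [hMd, mem_insert]
        by_cases h1 : m = 1
        · left; exact h1
        · right
          have hp := Nat.minFac_prime h1
          obtain ⟨s, hs⟩ := Nat.minFac_dvd m
          have hs1 : s = 1 := by
            by_contra hne
            obtain ⟨r, hr, hrs⟩ := Nat.exists_prime_and_dvd hne
            have h2 : u < r := hpr r hr (by rw [hs]; exact hrs.mul_left _)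
            have h3 : u < (m.minFac : ℝ) := hpr _ hp (Nat.minFac_dvd m)
            have hs0 : 0 < s := by
              rcases Nat.eq_zero_or_pos s with h | h
              · rw [h, mul_zero] at hs; omega
              · exact h
            have h4 : (r : ℝ) ≤ s := by exact_mod_cast Nat.le_of_dvd hs0 hrs
            have h5 : (m : ℝ) = m.minFac * s := by exact_mod_cast hs
            have : u ^ 2 < (m.minFac : ℝ) * s := by
              have hu0 : 0 < u := by linarith
              nlinarith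
            linarith
          rw [hs1, mul_one] at hs
          rw [← hs] at hp
          rw [hQ, mem_filter, mem_PR (by positivity)]
          exact ⟨⟨hp, hmlt.le⟩, hpr m hp dvd_rfl⟩
      rw [mem_biUnion]
      refine ⟨m, hmM, ?_⟩
      rw [mem_image]
      refine ⟨q, ?_, mul_comm _ _⟩
      rw [hPP]
      dsimp only
      rw [mem_filter, mem_filter, mem_Icc]
      refine ⟨⟨⟨hq0, ?_⟩, hq⟩, hyq⟩
      rw [Nat.le_div_iff_mul_le hm0]
      exact hN2
    · apply mem_union_left
      rw [mem_filter, mem_Icc]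
      refine ⟨⟨hN1, hN2⟩, fun p hp hd => ?_⟩
      rcases hN3 p hp hd with h | h
      · exact h.2
      · exact absurd ⟨p, hp, hd, h⟩ hbig
  have hdiv4 : ∀ m ∈ M, ∀ q ∈ PP m, ((m * q).divisors.card : ℝ) ≤ 4 := by
    intro m hm q hq
    rw [hPP] at hq
    dsimp only at hq
    rw [mem_filter, mem_filter, mem_Icc] at hq
    have hqp : q.Prime := hq.1.2
    rw [hMd, mem_insert] at hm
    rcases hm with rfl | hm
    · rw [one_mul, hqp.divisors, card_pair hqp.one_lt.ne]
      norm_num
    · rw [hQ, mem_filter, mem_PR (by positivity)] at hm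
      have hmp : m.Prime := hm.1.1
      have hne : m ≠ q := by
        intro h
        have h1 : (m : ℝ) ≤ u ^ 2 := hm.1.2
        have h2 := hq.2
        rw [← h] at h2
        rw [hu] at h1
        linarith
      have hcop : Nat.Coprime m q := (Nat.coprime_primes hmp hqp).2 hne
      rw [Nat.Coprime.card_divisors_mul hcop, hmp.divisors, hqp.divisors,
        card_pair hmp.one_lt.ne, card_pair hqp.one_lt.ne]
      norm_num
  calc ∑ N ∈ NN y T, (N.divisors.card : ℝ)
      ≤ ∑ N ∈ ((Finset.Icc 1 T).filter (fun m => ∀ p : ℕ, p.Prime → p ∣ m →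
      Real.log p ≤ V0 y)) ∪ M.biUnion (fun m => (PP m).image (fun q => m * q)),
          (N.divisors.card : ℝ) :=
        sum_le_sum_of_subset_of_nonneg hsub fun _ _ _ => by positivity
    _ ≤ ∑ N ∈ (Finset.Icc 1 T).filter (fun m => ∀ p : ℕ, p.Prime → p ∣ m →
      Real.log p ≤ V0 y), (N.divisors.card : ℝ) +
        ∑ N ∈ M.biUnion (fun m => (PP m).image (fun q => m * q)), (N.divisors.card : ℝ) := by
        rw [← sum_union_inter]
        have : 0 ≤ ∑ N ∈ ((Finset.Icc 1 T).filter (fun m => ∀ p : ℕ, p.Prime → p ∣ m →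
      Real.log p ≤ V0 y)) ∩ M.biUnion (fun m => (PP m).image (fun q => m * q)),
          (N.divisors.card : ℝ) := sum_nonneg fun _ _ => by positivity
        linarith
    _ ≤ T / Real.log y + ∑ m ∈ M, 4 * (10 * (T / m) / Real.log y) := by
        apply add_le_add hsm1
        calc ∑ N ∈ M.biUnion (fun m => (PP m).image (fun q => m * q)), (N.divisors.card : ℝ)
            ≤ ∑ m ∈ M, ∑ N ∈ (PP m).image (fun q => m * q), (N.divisors.card : ℝ) :=
              sum_biUnion_le' _ _ _ (fun _ => Nat.cast_nonneg _)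
          _ ≤ _ := by
            apply sum_le_sum
            intro m hm
            calc ∑ N ∈ (PP m).image (fun q => m * q), (N.divisors.card : ℝ)
                ≤ ∑ N ∈ (PP m).image (fun q => m * q), (4 : ℝ) := by
                  apply sum_le_sum
                  intro N hN
                  obtain ⟨q, hq, rfl⟩ := mem_image.1 hN
                  exact hdiv4 m hm q hq
              _ = 4 * (((PP m).image (fun q => m * q)).card : ℝ) := by
                  rw [sum_const, nsmul_eq_mul]; ring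
              _ ≤ 4 * ((PP m).card : ℝ) := by
                  have : ((PP m).image (fun q => m * q)).card ≤ (PP m).card := card_image_le
                  have h : (((PP m).image (fun q => m * q)).card : ℝ) ≤ ((PP m).card : ℝ) := by
                    exact_mod_cast this
                  linarith
              _ ≤ _ := by
                  have := hPPc m hm
                  linarith
    _ = T / Real.log y + 40 * (T / Real.log y) * ∑ m ∈ M, (1 : ℝ) / m := by
        rw [mul_sum]
        congr 1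
        apply sum_congr rfl
        intro m _
        ring
    _ ≤ T / Real.log y + 40 * (T / Real.log y) * (2 + 2 * C) := by
        have : 0 ≤ 40 * ((T : ℝ) / Real.log y) := by positivity
        have := mul_le_mul_of_nonneg_left hMsum this
        linarith
    _ = (1 + 40 * (2 + 2 * C)) * T / Real.log y := by ring

end Pool.Agent.L7h34.DF
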