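import Pool.Agent.L7h47.DF.Stm

set_option autoImplicit false

/-! Project DF, part PAR. -/

namespace Pool.Agent.L7h34.DF

open Pool.Agent.L7h47.DF Finset

theorem s_PAR : S_PAR := by
  intro G _ _ _ k lam D hD
  obtain ⟨hk, hl⟩ := hD
  have h1 : (D ×ˢ D).card = ∑ g : G, ((D ×ˢ D).filter fun e => e.1 - e.2 = g).card :=
    card_eq_sum_card_fiberwise (fun _ _ => by simp)
  have h0 : ((D ×ˢ D).filter fun e => e.1 - e.2 = (0 : G)).card = k := by
    have : ((D ×ˢ D).filter fun e => e.1 - e.2 = (0 : G)) = D.image fun d => (d, d) := by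
      ext ⟨a, b⟩
      simp only [mem_filter, mem_product, mem_image, Prod.mk.injEq, sub_eq_zero]
      constructor
      · rintro ⟨⟨ha, -⟩, rfl⟩
        exact ⟨a, ha, rfl, rfl⟩
      · rintro ⟨d, hd, rfl, rfl⟩
        exact ⟨⟨hd, hd⟩, rfl⟩
    rw [this, card_image_of_injective _ (fun a b h => (Prod.mk.inj h).1), hk]
  have h2 : ∑ g : G, ((D ×ˢ D).filter fun e => e.1 - e.2 = g).card =
      k + ∑ g ∈ univ.erase (0 : G), lam := by
    rw [← add_sum_erase univ _ (mem_univ (0 : G)), h0]
    congr 1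
    apply sum_congr rfl
    intro g hg
    exact hl g (ne_of_mem_erase hg)
  rw [card_product, hk, h2, sum_const, card_erase_of_mem (mem_univ _), card_univ, smul_eq_mul,
    mul_comm (Fintype.card G - 1) lam] at h1
  exact h1

end Pool.Agent.L7h34.DF
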