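import Pool.Agent.L7h34.DF.Rep
import Pool.Agent.L7h34.DF.Avg
import Pool.Agent.L7h34.DF.Med
import Pool.Agent.L7h34.DF.Col
import Pool.Agent.H474R2.GE.FA
import Pool.Agent.H474R2.PG.Count
import Pool.Agent.N201.SQ.Ana

set_option autoImplicit false

/-! # The choice of the residue classes modulo the primes up to `y` -/

namespace Pool.Agent.L7h34.DF

open Finset Filter Polynomial
open Pool.Agent.H474R2.PG (PR Sg rho)

open scoped Classical in
/-- all admissible colours -/
noncomputable def VS (D T : ℕ) : Finset (ℕ × ℤ × ℤ) :=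
  ((range (D + 1)) ×ˢ (Icc (-(2 * (T : ℤ))) (2 * T)) ×ˢ (Icc (0 : ℤ) (2 * T))).filter (Val D T)

theorem mem_VS {D T : ℕ} (hT : 1 ≤ T) {k : ℕ × ℤ × ℤ} : k ∈ VS D T ↔ Val D T k := by
  classical
  have hTz : (1 : ℤ) ≤ T := by exact_mod_cast hT
  unfold VS
  rw [mem_filter, mem_product, mem_product, mem_range, mem_Icc, mem_Icc]
  constructor
  · exact fun h => h.2
  · intro h
    refine ⟨?_, h⟩
    obtain ⟨d, t, b⟩ := k
    rcases h with ⟨h1, h2, h3⟩ | ⟨h1, h2, h3, h4, h5, h6⟩
    · dsimp only at h1 h2 h3 ⊢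
      rw [abs_le] at h2
      subst h1 h3
      exact ⟨by omega, ⟨by omega, by omega⟩, by omega, by omega⟩
    · dsimp only at h1 h2 h3 h4 h5 h6 ⊢
      have hd : (1 : ℤ) ≤ d := by exact_mod_cast h1
      have hb : b ^ 2 ≤ 4 * T := by nlinarith [sq_nonneg t, sq_nonneg b]
      have ht : t ^ 2 ≤ 4 * T := by nlinarith [sq_nonneg t, sq_nonneg b]
      refine ⟨by omega, ⟨?_, ?_⟩, by omega, ?_⟩ <;> nlinarith

/-- the number of colours left by Rankin's choice -/
theorem card_left (D : ℕ) : ∃ y₀ : ℝ, ∀ y : ℝ, y₀ ≤ y → ∀ T : ℕ, 1 ≤ T → ∀ R : Finset (ℕ × ℤ × ℤ),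
    (∀ k ∈ R, Val D T k) →
    (∀ k ∈ R, ∀ p : ℕ, p.Prime → (p : ℝ) ≤ y → ((p : ℝ) ≤ Real.log y ∨ V0 y < Real.log p) →
      ¬ (p : ℤ) ∣ (CP k).eval 0) →
    (R.card : ℝ) ≤ (2 + 18 * D) * ∑ N ∈ NN y T, (N.divisors.card : ℝ) := by
  classical
  refine ⟨Real.exp (D + 3), fun y hy T hT R hR hR2 => ?_⟩
  have hy0 : 0 < y := (Real.exp_pos _).trans_le hy
  have hly : (D : ℝ) + 3 ≤ Real.log y := by
    rw [← Real.log_exp ((D : ℝ) + 3)]
    exact Real.log_le_log (Real.exp_pos _) hy
  have hyD : Real.log y < y := by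
    have := Real.log_le_sub_one_of_pos hy0
    linarith
  have hD0 : (0 : ℝ) ≤ D := Nat.cast_nonneg D
  -- membership in `NN`
  have hmem : ∀ k ∈ R, ∀ N : ℕ, 1 ≤ N → N ≤ T → (N : ℤ) ∣ (CP k).eval 0 → N ∈ NN y T := by
    intro k hk N h1 h2 h3
    rw [mem_NN]
    refine ⟨⟨h1, h2⟩, fun p hp hd => ?_⟩
    have hdvd : (p : ℤ) ∣ (CP k).eval 0 := dvd_trans (by exact_mod_cast hd) h3
    by_cases hpy : (p : ℝ) ≤ y
    · left
      have h4 : ¬ ((p : ℝ) ≤ Real.log y ∨ V0 y < Real.log p) := fun h => hR2 k hk p hp hpy h hdvd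
      push Not at h4
      exact h4
    · right
      linarith
  -- the sum
  obtain ⟨Sg', hS⟩ : ∃ s, s = ∑ N ∈ NN y T, (N.divisors.card : ℝ) := ⟨_, rfl⟩
  have hcard1 : ((NN y T).card : ℝ) ≤ Sg' := by
    rw [hS, card_eq_sum_ones]
    push_cast
    apply sum_le_sum
    intro N hN
    have h1 := (mem_NN.1 hN).1.1
    have : 1 ≤ N.divisors.card := by
      rw [Nat.one_le_iff_ne_zero, card_ne_zero]
      exact ⟨1, Nat.one_mem_divisors.2 (by omega)⟩
    exact_mod_cast this
  -- linear colours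
  have hlin : ((R.filter (fun k => k.1 = 0)).card : ℝ) ≤ 2 * Sg' := by
    have h1 : (R.filter (fun k => k.1 = 0)).card ≤ ((NN y T) ×ˢ (univ : Finset Bool)).card := by
      apply card_le_card_of_injOn (fun k => (k.2.1.natAbs, decide (0 ≤ k.2.1)))
      · intro k hk
        rw [mem_coe, mem_filter] at hk
        rw [mem_coe, mem_product]
        refine ⟨?_, mem_univ _⟩
        obtain ⟨hkR, hk0⟩ := hk
        obtain ⟨d, t, b⟩ := k
        dsimp only at hk0 ⊢
        subst hk0
        have hv := hR _ hkR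
        have ht : |t| ≤ T := by
          rcases hv with h | h
          · exact h.2.1
          · exact absurd h.1 (by norm_num)
        apply hmem _ hkR
        · -- `t ≠ 0`
          rw [Nat.one_le_iff_ne_zero, Int.natAbs_ne_zero]
          intro ht0
          apply hR2 _ hkR 2 Nat.prime_two
          · push_cast; linarith
          · left; push_cast; linarith
          · rw [eval_lin, ht0]; simp
        · have : (t.natAbs : ℤ) ≤ T := by rw [Int.natCast_natAbs]; exact ht
          exact_mod_cast this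
        · rw [eval_lin, zero_add, Int.natCast_natAbs]
          exact abs_dvd_self t
      · intro k hk l hl hkl
        rw [mem_coe, mem_filter] at hk hl
        obtain ⟨d, t, b⟩ := k
        obtain ⟨d', t', b'⟩ := l
        obtain ⟨hk1, hk2⟩ := hk
        obtain ⟨hl1, hl2⟩ := hl
        dsimp only at hk2 hl2 hkl
        subst hk2 hl2
        have hb : b = 0 := by
          rcases hR _ hk1 with h | h
          · exact h.2.2
          · exact absurd h.1 (by norm_num)
        have hb' : b' = 0 := by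
          rcases hR _ hl1 with h | h
          · exact h.2.2
          · exact absurd h.1 (by norm_num)
        rw [Prod.mk.injEq] at hkl
        have ht : t = t' := by
          rcases Int.natAbs_eq_natAbs_iff.1 hkl.1 with h | h
          · exact h
          · have h2 := hkl.2
            rw [decide_eq_decide] at h2
            rcases le_or_gt 0 t with h3 | h3
            · have := h2.1 h3
              omega
            · have : ¬ 0 ≤ t' := fun h4 => absurd (h2.2 h4) (by omega)
              omega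
        rw [ht, hb, hb']
    have h2 : (((NN y T) ×ˢ (univ : Finset Bool)).card : ℝ) = 2 * (NN y T).card := by
      rw [card_product]
      simp
      ring
    calc ((R.filter (fun k => k.1 = 0)).card : ℝ) ≤ (((NN y T) ×ˢ (univ : Finset Bool)).card : ℝ) := by
          exact_mod_cast h1
      _ = 2 * (NN y T).card := h2
      _ ≤ 2 * Sg' := by linarith
  -- quadratic colours
  have hquad : ∀ d ∈ Icc 1 D, ((R.filter (fun k => k.1 = d)).card : ℝ) ≤ 18 * Sg' := by
    intro d hd
    rw [mem_Icc] at hd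
    have hdz : (1 : ℤ) ≤ d := by exact_mod_cast hd.1
    obtain ⟨φ, hφ⟩ : ∃ φ : ℕ × ℤ × ℤ → ℕ, φ = fun k => ((k.2.1 ^ 2 + k.1 * k.2.2 ^ 2) / 4).toNat := ⟨_, rfl⟩
    have hφN : ∀ k ∈ R.filter (fun k => k.1 = d), ((φ k : ℕ) : ℤ) * 4 = k.2.1 ^ 2 + d * k.2.2 ^ 2 ∧
        φ k ∈ NN y T := by
      intro k hk
      rw [mem_filter] at hk
      obtain ⟨hkR, hkd⟩ := hk
      obtain ⟨d', t, b⟩ := k
      dsimp only at hkd
      subst hkd
      rcases hR _ hkR with h | ⟨_, _, _, hb, h4, hle⟩
      · exact absurd h.1 (by simp only; omega)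
      dsimp only at hb h4 hle ⊢
      obtain ⟨N, hN⟩ := h4
      have hdiv : (t ^ 2 + d' * b ^ 2) / 4 = N := by
        rw [hN]; exact Int.mul_ediv_cancel_left N (by norm_num)
      have hpos : 0 < t ^ 2 + d' * b ^ 2 := by nlinarith [sq_nonneg t]
      have hNpos : 0 < N := by nlinarith
      have hNT : N ≤ T := by nlinarith
      obtain ⟨m, rfl⟩ := Int.eq_ofNat_of_zero_le hNpos.le
      have hφv : φ (d', t, b) = m := by
        rw [hφ]
        dsimp only
        rw [hdiv, Int.toNat_natCast]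
      rw [hφv]
      refine ⟨by rw [hN]; ring, ?_⟩
      apply hmem _ hkR
      · exact_mod_cast hNpos
      · exact_mod_cast hNT
      · unfold CP
        rw [if_neg (by dsimp only; omega)]
        simp only [eval_add, eval_pow, eval_X, eval_mul, eval_C]
        rw [hdiv]
        simp
    have h1 : ((R.filter (fun k => k.1 = d)).card : ℝ) =
        ∑ N ∈ NN y T, (((R.filter (fun k => k.1 = d)).filter (fun k => φ k = N)).card : ℝ) := by
      rw [card_eq_sum_card_fiberwise (f := φ) (t := NN y T)]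
      · push_cast; rfl
      · intro k hk
        exact (hφN k hk).2
    rw [h1, hS, mul_sum]
    apply sum_le_sum
    intro N hN
    have hN1 := (mem_NN.1 hN)
    have h2 : ((R.filter (fun k => k.1 = d)).filter (fun k => φ k = N)).card =
        (((R.filter (fun k => k.1 = d)).filter (fun k => φ k = N)).image (fun k => k.2)).card := by
      rw [card_image_of_injOn]
      intro k hk l hl hkl
      rw [mem_coe, mem_filter, mem_filter] at hk hl
      exact Prod.ext (hk.1.2.trans hl.1.2.symm) hkl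
    rw [h2]
    have h3 := card_rep d hdz N hN1.1.1 (by
      intro p hp hpN
      have h4 : Real.log y < p := by
        rcases hN1.2 p hp hpN with h | h
        · exact h.1
        · linarith
      constructor
      · rintro rfl
        push_cast at h4
        linarith
      · intro h
        have h5 : p ∣ d := by exact_mod_cast h
        have h6 : (p : ℝ) ≤ d := by exact_mod_cast Nat.le_of_dvd (by omega) h5
        have h7 : (d : ℝ) ≤ D := by exact_mod_cast hd.2
        linarith) (((R.filter (fun k => k.1 = d)).filter (fun k => φ k = N)).image (fun k => k.2)) (by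
      intro x hx
      rw [mem_image] at hx
      obtain ⟨k, hk, rfl⟩ := hx
      rw [mem_filter] at hk
      have h4 := (hφN k hk.1).1
      rw [hk.2] at h4
      unfold IsRep
      linarith)
    exact_mod_cast h3
  -- sum
  have hdec : (R.card : ℝ) = ∑ d ∈ range (D + 1), ((R.filter (fun k => k.1 = d)).card : ℝ) := by
    rw [card_eq_sum_card_fiberwise (f := fun k : ℕ × ℤ × ℤ => k.1) (t := range (D + 1))]
    · push_cast; rfl
    · intro k hk
      rw [mem_coe, mem_range]
      show k.1 < D + 1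
      rcases hR k hk with h | h
      · rw [h.1]; omega
      · have := h.2.1
        omega
  rw [hdec, ← hS]
  have hr : range (D + 1) = insert 0 (Icc 1 D) := by
    ext d
    rw [mem_range, mem_insert, mem_Icc]
    omega
  rw [hr, sum_insert (by simp)]
  have h5 : ∑ d ∈ Icc 1 D, ((R.filter (fun k => k.1 = d)).card : ℝ) ≤ D * (18 * Sg') := by
    calc ∑ d ∈ Icc 1 D, ((R.filter (fun k => k.1 = d)).card : ℝ) ≤ ∑ d ∈ Icc 1 D, 18 * Sg' :=
          sum_le_sum hquad
      _ = D * (18 * Sg') := by rw [sum_const, Nat.card_Icc, nsmul_eq_mul]; simp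
  calc _ ≤ 2 * Sg' + D * (18 * Sg') := add_le_add hlin h5
    _ = (2 + 18 * D) * Sg' := by ring


/-- the primes of the range `log y < p ≤ exp (V0 y)` -/
noncomputable def SS (y : ℝ) : Finset ℕ := (PR (Real.exp (V0 y))).filter (fun p : ℕ => Real.log y < p)

theorem mem_SS {y : ℝ} {p : ℕ} : p ∈ SS y ↔ (p.Prime ∧ Real.log p ≤ V0 y) ∧ Real.log y < p := by
  unfold SS
  rw [mem_filter, mem_PR (Real.exp_pos _).le]
  constructor
  · rintro ⟨⟨h1, h2⟩, h3⟩
    exact ⟨⟨h1, (Real.log_le_iff_le_exp (by exact_mod_cast h1.pos)).2 h2⟩, h3⟩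
  · rintro ⟨⟨h1, h2⟩, h3⟩
    exact ⟨⟨h1, (Real.log_le_iff_le_exp (by exact_mod_cast h1.pos)).1 h2⟩, h3⟩

/-- the average proportion of the classes which do not kill a colour -/
theorem factor (D : ℕ) : ∃ E : ℝ, 0 < E ∧ ∃ y₀ : ℝ, ∀ y : ℝ, y₀ ≤ y → ∀ T : ℕ, 1 ≤ T →
    (T : ℝ) ≤ y * (Real.log y) ^ 2 → ∀ k, Val D T k →
    ∏ p ∈ SS y, (1 - (rho (CP k) p : ℝ) / p) ≤
      E * ((Real.log (Real.log y)) ^ 2 / (Real.log y * Real.log (Real.log (Real.log y)))) := by
  classical
  choose C hC0 hM using fun d : ℕ => Pool.Agent.H474R2.GE.mertens_rho (gP d) (gP_irreducible d)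
    (gP_natDegree d)
  obtain ⟨C', hC'⟩ : ∃ C', C' = ∑ d ∈ range (D + 1), C d := ⟨_, rfl⟩
  have hCd : ∀ d ∈ range (D + 1), C d ≤ C' := by
    intro d hd
    rw [hC']
    exact single_le_sum (f := fun d => C d) (fun d _ => hC0 d) hd
  have t1 : Tendsto (fun Y : ℝ => Real.log Y) atTop atTop := Real.tendsto_log_atTop
  have t2 : Tendsto (fun Y : ℝ => Real.log (Real.log Y)) atTop atTop := t1.comp t1
  have t3 : Tendsto (fun Y : ℝ => Real.log (Real.log (Real.log Y))) atTop atTop := t1.comp t2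
  have hev : ∀ᶠ y : ℝ in atTop, (3 + (D : ℝ) ≤ Real.log y ∧ (Real.log y) ^ 2 ≤ y) ∧
      (1 ≤ Real.log (Real.log y) ∧ 40 * Real.log (Real.log y) ≤ Real.log y) ∧
      1 ≤ Real.log (Real.log (Real.log y)) := by
    have e1 := Real.isLittleO_pow_log_id_atTop (n := 2)
    have e2 := e1.def (show (0 : ℝ) < 1 by norm_num)
    have e3 : ∀ᶠ t : ℝ in atTop, 40 * Real.log t ≤ t := by
      have h2 := Real.isLittleO_log_id_atTop.def (show (0:ℝ) < 1 / 40 by norm_num)
      filter_upwards [h2, eventually_ge_atTop (1:ℝ)] with t ht ht1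
      rw [Real.norm_eq_abs, abs_of_nonneg (Real.log_nonneg ht1), Real.norm_eq_abs] at ht
      simp only [id] at ht
      rw [abs_of_nonneg (by linarith)] at ht
      linarith
    filter_upwards [t1.eventually_ge_atTop (3 + (D : ℝ)), e2, t2.eventually_ge_atTop 1,
      t1.eventually e3, t3.eventually_ge_atTop 1, eventually_ge_atTop (1 : ℝ)]
      with y h1 h2 h3 h4 h5 h6
    refine ⟨⟨h1, ?_⟩, ⟨h3, h4⟩, h5⟩
    rw [Real.norm_of_nonneg (by positivity), one_mul, id, Real.norm_of_nonneg (by linarith)] at h2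
    exact h2
  obtain ⟨y₀, hy₀⟩ := eventually_atTop.1 hev
  refine ⟨10 * Real.exp (2 * C' + 12), by positivity, y₀, fun y hy T hT1 hT k hk => ?_⟩
  obtain ⟨⟨l1, l2⟩, ⟨l3, l4⟩, l5⟩ := hy₀ y hy
  have hD0 : (0 : ℝ) ≤ D := Nat.cast_nonneg D
  obtain ⟨u, hu⟩ : ∃ u, u = Real.log y := ⟨_, rfl⟩
  obtain ⟨t, ht⟩ : ∃ t, t = Real.log (Real.log y) := ⟨_, rfl⟩
  obtain ⟨s, hs⟩ : ∃ s, s = Real.log (Real.log (Real.log y)) := ⟨_, rfl⟩
  have hV0 : V0 y = u * s / (10 * t) := by unfold V0; rw [hu, ht, hs]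
  rw [← hs] at l5
  rw [← ht] at l3 l4
  rw [← hu] at l1 l2 l4
  have ht0 : 0 < t := by linarith
  have hs0 : 0 < s := by linarith
  have hu0 : 0 < u := by linarith
  have hV2 : 4 ≤ V0 y := by
    rw [hV0, le_div_iff₀ (by positivity)]
    nlinarith
  have hz3 : 3 ≤ Real.exp (V0 y) := by
    have := Real.add_one_le_exp (V0 y)
    linarith
  -- the class of the colour
  have hkD : k.1 ∈ range (D + 1) := by
    rw [mem_range]
    rcases hk with h | h
    · rw [h.1]; omega
    · have := h.2.1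
      omega
  -- the Mertens sum
  have hmert : Real.log (V0 y) - s - 2 * C' ≤ ∑ p ∈ SS y, (rho (gP k.1) p : ℝ) / p := by
    have a1 := (abs_le.1 (hM k.1 (Real.exp (V0 y)) hz3)).1
    have a2 := (abs_le.1 (hM k.1 u (by linarith))).2
    rw [Real.log_exp] at a1
    have a3 : Real.log (Real.log u) = s := by rw [hu, hs]
    rw [a3] at a2
    have a4 := hCd _ hkD
    have a5 : Sg (rho (gP k.1)) (Real.exp (V0 y)) ≤
        ∑ p ∈ SS y, (rho (gP k.1) p : ℝ) / p + Sg (rho (gP k.1)) u := by
      unfold Sg SS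
      rw [← sum_filter_add_sum_filter_not (PR (Real.exp (V0 y))) (fun p : ℕ => Real.log y < (p : ℝ))]
      apply add_le_add le_rfl
      apply sum_le_sum_of_subset_of_nonneg
      · intro p hp
        rw [mem_filter, mem_PR (Real.exp_pos _).le, not_lt] at hp
        rw [mem_PR hu0.le]
        exact ⟨hp.1.1, by rw [hu]; exact hp.2⟩
      · intro p _ _
        positivity
    linarith
  -- primes dividing `b`
  have hbsum : ∑ p ∈ SS y, (rho (gP k.1) p : ℝ) / p ≤ ∑ p ∈ SS y, (rho (CP k) p : ℝ) / p + 12 := by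
    rcases hk with ⟨h1, h2, h3⟩ | ⟨h1, h2, h3, h4, h5, h6⟩
    · have : ∑ p ∈ SS y, (rho (gP k.1) p : ℝ) / p = ∑ p ∈ SS y, (rho (CP k) p : ℝ) / p := by
        apply sum_congr rfl
        intro p hp
        have hpp := (mem_SS.1 hp).1.1
        rw [h1, rho_gP_zero p hpp]
        unfold CP
        rw [if_pos h1, rho_lin p hpp]
      rw [this]
      linarith
    · obtain ⟨d, tt, b⟩ := k
      dsimp only at h1 h2 h3 h4 h5 h6 ⊢
      have hdz : (1 : ℤ) ≤ d := by exact_mod_cast h1
      have hTz : (1 : ℤ) ≤ T := by exact_mod_cast hT1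
      obtain ⟨b', rfl⟩ := Int.eq_ofNat_of_zero_le (show 0 ≤ b by omega)
      have hb1 : 1 ≤ b' := by exact_mod_cast h4
      have hbT : b' ≤ 2 * T := by
        have : (b' : ℤ) ≤ 2 * T := by nlinarith [sq_nonneg tt]
        exact_mod_cast this
      have hlogb : Real.log b' ≤ 4 * u := by
        have e1 : (b' : ℝ) ≤ 2 * T := by exact_mod_cast hbT
        have hyy : (1 : ℝ) ≤ y := by nlinarith
        have e2 : (b' : ℝ) ≤ y ^ 4 := by
          have e3 : (T : ℝ) ≤ y * y := by
            refine hT.trans ?_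
            rw [← hu]
            exact mul_le_mul_of_nonneg_left l2 (by linarith)
          have e4 : (9 : ℝ) ≤ y := by nlinarith
          have e6 : 81 ≤ y * y := by nlinarith
          have e5 : 2 * (y * y) ≤ y ^ 4 := by
            have : y ^ 4 = (y * y) * (y * y) := by ring
            rw [this]
            nlinarith
          linarith
        have hb0 : (0 : ℝ) < b' := by exact_mod_cast hb1
        have := Real.log_le_log hb0 e2
        rw [Real.log_pow] at this
        rw [hu]
        push_cast at this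
        exact this
      have hterm : ∀ p ∈ SS y, (rho (gP d) p : ℝ) / p ≤ (rho (CP (d, tt, (b' : ℤ))) p : ℝ) / p +
          (if p ∣ b' then 2 / u else 0) := by
        intro p hp
        obtain ⟨⟨hpp, _⟩, hup⟩ := mem_SS.1 hp
        rw [← hu] at hup
        have hp0 : (0 : ℝ) < p := by exact_mod_cast hpp.pos
        split_ifs with hd
        · have e1 : (rho (gP d) p : ℝ) ≤ 2 := by exact_mod_cast rho_gP_le d p hpp
          have e2 : (rho (gP d) p : ℝ) / p ≤ 2 / u := by
            apply div_le_div₀ (by norm_num) e1 hu0 hup.le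
          have e3 : 0 ≤ (rho (CP (d, tt, (b' : ℤ))) p : ℝ) / p := by positivity
          linarith
        · have hp2 : p ≠ 2 := by
            rintro rfl
            push_cast at hup
            linarith
          rw [rho_quad p hpp hp2 d (by omega) tt b' h5 (by exact_mod_cast hd)]
          linarith
      have hcount : (((SS y).filter (fun p => p ∣ b')).card : ℝ) * Real.log 2 ≤ 4 * u := by
        have e1 : ∏ p ∈ (SS y).filter (fun p => p ∣ b'), p ≤ b' := by
          apply Nat.le_of_dvd hb1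
          apply Finset.prod_primes_dvd
          · intro p hp
            exact (mem_SS.1 (mem_filter.1 hp).1).1.1.prime
          · intro p hp
            exact (mem_filter.1 hp).2
        have e2 : 2 ^ ((SS y).filter (fun p => p ∣ b')).card ≤
            ∏ p ∈ (SS y).filter (fun p => p ∣ b'), p := by
          apply pow_card_le_prod
          intro p hp
          exact (mem_SS.1 (mem_filter.1 hp).1).1.1.two_le
        have e3 : (2 : ℝ) ^ ((SS y).filter (fun p => p ∣ b')).card ≤ b' := by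
          exact_mod_cast e2.trans e1
        have e4 := Real.log_le_log (by positivity) e3
        rw [Real.log_pow] at e4
        linarith
      calc ∑ p ∈ SS y, (rho (gP d) p : ℝ) / p ≤ ∑ p ∈ SS y, ((rho (CP (d, tt, (b' : ℤ))) p : ℝ) / p +
          (if p ∣ b' then 2 / u else 0)) := sum_le_sum hterm
        _ = ∑ p ∈ SS y, (rho (CP (d, tt, (b' : ℤ))) p : ℝ) / p +
            ((SS y).filter (fun p => p ∣ b')).card * (2 / u) := by
            rw [sum_add_distrib, ← sum_filter, sum_const, nsmul_eq_mul]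
        _ ≤ _ := by
            have h2 := Real.log_two_gt_d9
            have : (((SS y).filter (fun p => p ∣ b')).card : ℝ) * (2 / u) ≤ 12 := by
              rw [mul_div_assoc', div_le_iff₀ hu0]
              nlinarith [Nat.cast_nonneg (α := ℝ) ((SS y).filter (fun p => p ∣ b')).card]
            linarith
  have hexp : ∏ p ∈ SS y, (1 - (rho (CP k) p : ℝ) / p) ≤
      Real.exp (-∑ p ∈ SS y, (rho (CP k) p : ℝ) / p) := by
    rw [← sum_neg_distrib, Real.exp_sum]
    apply Finset.prod_le_prod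
    · intro p hp
      have hp0 : (0:ℝ) < p := by exact_mod_cast (mem_SS.1 hp).1.1.pos
      have : (rho (CP k) p : ℝ) / p ≤ 1 := by
        rw [div_le_one hp0]
        have h1 : rho (CP k) p ≤ p := by
          unfold rho
          exact (card_filter_le _ _).trans (by rw [card_range])
        exact_mod_cast h1
      linarith
    · intro p _
      have := Real.add_one_le_exp (-((rho (CP k) p : ℝ) / (p : ℝ)))
      linarith
  refine hexp.trans ?_
  have h1 : Real.exp (-∑ p ∈ SS y, (rho (CP k) p : ℝ) / p) ≤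
      Real.exp (s - Real.log (V0 y) + (2 * C' + 12)) := Real.exp_le_exp.2 (by linarith)
  refine h1.trans (le_of_eq ?_)
  have hst : Real.exp s = t := by rw [hs, ← ht, Real.exp_log ht0]
  rw [Real.exp_add, Real.exp_sub, Real.exp_log (by linarith), hst, hV0, ← hs, ← ht, ← hu]
  field_simp

/-- the choice of the residue class modulo the primes up to `y` -/
theorem presieve (D : ℕ) : ∃ C : ℝ, 0 < C ∧ ∃ y₀ : ℝ, ∀ y : ℝ, y₀ ≤ y → ∀ T : ℕ, y ≤ T →
    (T : ℝ) ≤ y * (Real.log y) ^ 2 → ∃ n₀ : ℕ, ∀ R : Finset (ℕ × ℤ × ℤ), (∀ k ∈ R, Val D T k) →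
    (∀ k ∈ R, ∀ p : ℕ, p.Prime → (p : ℝ) ≤ y → ¬ (p : ℤ) ∣ (CP k).eval (n₀ : ℤ)) →
    (R.card : ℝ) ≤ C * T * (Real.log (Real.log y)) ^ 2 /
      ((Real.log y) ^ 2 * Real.log (Real.log (Real.log y))) := by
  classical
  obtain ⟨y₁, hleft⟩ := card_left D
  obtain ⟨E, hE, y₂, hfac⟩ := factor D
  obtain ⟨Cm, hCm, y₃, hmed⟩ := med
  have t1 : Tendsto (fun Y : ℝ => Real.log Y) atTop atTop := Real.tendsto_log_atTop
  have t2 : Tendsto (fun Y : ℝ => Real.log (Real.log Y)) atTop atTop := t1.comp t1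
  have t3 : Tendsto (fun Y : ℝ => Real.log (Real.log (Real.log Y))) atTop atTop := t1.comp t2
  have hev : ∀ᶠ y : ℝ in atTop, 1 ≤ y ∧ 1 ≤ Real.log y ∧
      1 ≤ Real.log (Real.log y) ∧ 1 ≤ Real.log (Real.log (Real.log y)) ∧
      Real.log (Real.log (Real.log y)) ≤ 10 * Real.log (Real.log y) := by
    filter_upwards [eventually_ge_atTop (1 : ℝ), t1.eventually_ge_atTop 1, t2.eventually_ge_atTop 1,
      t3.eventually_ge_atTop 1] with y h1 h2 h3 h4
    refine ⟨h1, h2, h3, h4, ?_⟩
    have := Real.log_le_sub_one_of_pos (show 0 < Real.log (Real.log y) by linarith)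
    linarith
  obtain ⟨y₄, hy₄⟩ := eventually_atTop.1 hev
  refine ⟨E * ((2 + 18 * D) * Cm), by positivity, max (max y₁ y₂) (max y₃ y₄), fun y hy T hyT hT => ?_⟩
  have m1 : y₁ ≤ y := (le_max_left _ _).trans ((le_max_left _ _).trans hy)
  have m2 : y₂ ≤ y := (le_max_right _ _).trans ((le_max_left _ _).trans hy)
  have m3 : y₃ ≤ y := (le_max_left _ _).trans ((le_max_right _ _).trans hy)
  have m4 : y₄ ≤ y := (le_max_right _ _).trans ((le_max_right _ _).trans hy)
  obtain ⟨l0, l1, l2, l3, l4⟩ := hy₄ y m4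
  have hT1 : 1 ≤ T := by
    have : (1 : ℝ) ≤ T := by linarith
    exact_mod_cast this
  -- the colours left by the class zero
  obtain ⟨R₀, hR₀⟩ : ∃ R₀, R₀ = (VS D T).filter (fun k => ∀ p : ℕ, p.Prime → (p : ℝ) ≤ y →
      ((p : ℝ) ≤ Real.log y ∨ V0 y < Real.log p) → ¬ (p : ℤ) ∣ (CP k).eval 0) := ⟨_, rfl⟩
  have hR₀V : ∀ k ∈ R₀, Val D T k := by
    intro k hk
    rw [hR₀, mem_filter] at hk
    exact (mem_VS hT1).1 hk.1
  have hcard0 : (R₀.card : ℝ) ≤ (2 + 18 * D) * (Cm * T / Real.log y) := by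
    refine (hleft y m1 T hT1 R₀ hR₀V (by
      intro k hk
      rw [hR₀, mem_filter] at hk
      exact hk.2)).trans ?_
    exact mul_le_mul_of_nonneg_left (hmed y m3 T hyT hT) (by positivity)
  -- the classes for the primes of `SS y`
  obtain ⟨b, hb1, hb2⟩ := choose_classes (SS y) (fun p hp => (mem_SS.1 hp).1.1.one_lt.le)
    (fun p k => (range p).filter (fun a : ℕ => (p : ℤ) ∣ (CP k).eval (a : ℤ))) R₀
    (fun p _ k _ => filter_subset _ _)
  obtain ⟨n₀, hn₀lt, hn₀⟩ := Pool.Agent.N201.SQ.An.exists_crt ⌊y⌋₊ (fun p => if p ∈ SS y then b p else 0)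
  refine ⟨n₀, fun R hR hR2 => ?_⟩
  have hy0 : 0 < y := by linarith
  have hmod : ∀ p : ℕ, p.Prime → (p : ℝ) ≤ y → ∀ k,
      ((p : ℤ) ∣ (CP k).eval (n₀ : ℤ) ↔ (p : ℤ) ∣ (CP k).eval (((if p ∈ SS y then b p else 0 : ℕ)) : ℤ)) := by
    intro p hp hpy k
    have h1 := hn₀ p hp (Nat.le_floor hpy)
    exact Pool.Agent.H474R2.PG.eval_dvd_congr (CP k) p _ _ ((Nat.modEq_iff_dvd.1 h1.symm))
  have hsub : R ⊆ R₀.filter (fun k => ∀ p ∈ SS y, b p ∉
      (range p).filter (fun a : ℕ => (p : ℤ) ∣ (CP k).eval (a : ℤ))) := by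
    intro k hk
    rw [mem_filter]
    constructor
    · rw [hR₀, mem_filter]
      refine ⟨(mem_VS hT1).2 (hR k hk), fun p hp hpy hor hd => ?_⟩
      have hpS : p ∉ SS y := by
        intro h
        obtain ⟨⟨_, h2⟩, h3⟩ := mem_SS.1 h
        rcases hor with h | h <;> linarith
      apply hR2 k hk p hp hpy
      rw [hmod p hp hpy k, if_neg hpS]
      exact_mod_cast hd
    · intro p hp hmem
      rw [mem_filter] at hmem
      obtain ⟨⟨hpp, h2⟩, h3⟩ := mem_SS.1 hp
      have hpy : (p : ℝ) ≤ y := by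
        have hp0 : (0 : ℝ) < p := by exact_mod_cast hpp.pos
        have : Real.log p ≤ Real.log y := by
          refine h2.trans ?_
          unfold V0
          rw [div_le_iff₀ (by linarith)]
          apply mul_le_mul_of_nonneg_left _ (by linarith)
          exact l4
        exact (Real.log_le_log_iff hp0 hy0).1 this
      apply hR2 k hk p hpp hpy
      rw [hmod p hpp hpy k, if_pos hp]
      exact hmem.2
  have h1 : (R.card : ℝ) ≤ ∑ k ∈ R₀, ∏ p ∈ SS y, (1 - (rho (CP k) p : ℝ) / p) := by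
    refine le_trans ?_ hb2
    exact_mod_cast card_le_card hsub
  have h2 : ∑ k ∈ R₀, ∏ p ∈ SS y, (1 - (rho (CP k) p : ℝ) / p) ≤ ∑ k ∈ R₀, E *
      ((Real.log (Real.log y)) ^ 2 / (Real.log y * Real.log (Real.log (Real.log y)))) :=
    sum_le_sum fun k hk => hfac y m2 T hT1 hT k (hR₀V k hk)
  rw [sum_const, nsmul_eq_mul] at h2
  have hpos : 0 < (Real.log (Real.log y)) ^ 2 / (Real.log y * Real.log (Real.log (Real.log y))) := by
    positivity
  calc (R.card : ℝ) ≤ R₀.card * (E *
      ((Real.log (Real.log y)) ^ 2 / (Real.log y * Real.log (Real.log (Real.log y))))) := h1.trans h2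
    _ ≤ ((2 + 18 * D) * (Cm * T / Real.log y)) * (E *
      ((Real.log (Real.log y)) ^ 2 / (Real.log y * Real.log (Real.log (Real.log y))))) :=
        mul_le_mul_of_nonneg_right hcard0 (by positivity)
    _ = _ := by
        have : Real.log y ≠ 0 := by linarith
        have : Real.log (Real.log (Real.log y)) ≠ 0 := by linarith
        field_simp

end Pool.Agent.L7h34.DF
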