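import Mathlib

set_option autoImplicit false

/-! # The number of representations `4 N = t² + d b²` is at most `18 τ(N)` -/

namespace Pool.Agent.L7h34.DF

open Finset

/-- `(t, b)` represents `N`: `t² + d b² = 4 N` -/
def IsRep (d : ℤ) (N : ℕ) (x : ℤ × ℤ) : Prop := x.1 ^ 2 + d * x.2 ^ 2 = 4 * (N : ℤ)

/-- `t b' - t' b` -/
def det (x y : ℤ × ℤ) : ℤ := x.1 * y.2 - y.1 * x.2

theorem few_same (d : ℤ) (hd : 1 ≤ d) (N : ℕ) (hN : 1 ≤ N) (S : Finset (ℤ × ℤ))
    (hS : ∀ x ∈ S, IsRep d N x) (hdet : ∀ x ∈ S, ∀ y ∈ S, (N : ℤ) ∣ det x y) :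
    S.card ≤ 18 := by
  classical
  rcases S.eq_empty_or_nonempty with rfl | ⟨x₀, hx₀⟩
  · simp
  have hNz : (0 : ℤ) < N := by exact_mod_cast hN
  have h0 := hS x₀ hx₀
  unfold IsRep at h0
  -- the map
  have key : ∀ x ∈ S, ∃ q : ℤ, det x₀ x = N * q ∧ -4 ≤ q ∧ q ≤ 4 := by
    intro x hx
    obtain ⟨q, hq⟩ := hdet x₀ hx₀ x hx
    have h1 := hS x hx
    unfold IsRep at h1
    have hid : (x₀.1 ^ 2 + d * x₀.2 ^ 2) * (x.1 ^ 2 + d * x.2 ^ 2) =
        (x₀.1 * x.1 + d * x₀.2 * x.2) ^ 2 + d * (det x₀ x) ^ 2 := by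
      unfold det; ring
    rw [h0, h1, hq] at hid
    have h2 : d * (N * q) ^ 2 ≤ 16 * (N : ℤ) ^ 2 := by nlinarith [sq_nonneg (x₀.1 * x.1 + d * x₀.2 * x.2)]
    have h3 : (N * q) ^ 2 ≤ d * (N * q) ^ 2 := by nlinarith [sq_nonneg ((N : ℤ) * q)]
    have h4 : (N : ℤ) ^ 2 * q ^ 2 ≤ (N : ℤ) ^ 2 * 16 := by nlinarith
    have h5 : q ^ 2 ≤ 16 := le_of_mul_le_mul_left h4 (by positivity)
    exact ⟨q, hq, by nlinarith, by nlinarith⟩
  choose! q hq1 hq2 hq3 using key
  let φ : ℤ × ℤ → ℤ × Bool := fun x => (q x, decide (0 ≤ x₀.1 * x.1 + d * x₀.2 * x.2))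
  have hmap : ∀ x ∈ S, φ x ∈ (Finset.Icc (-4 : ℤ) 4) ×ˢ (Finset.univ : Finset Bool) := by
    intro x hx
    rw [mem_product]
    exact ⟨mem_Icc.2 ⟨hq2 x hx, hq3 x hx⟩, mem_univ _⟩
  have hinj : Set.InjOn φ S := by
    intro x hx y hy hxy
    have e1 : q x = q y := congrArg Prod.fst hxy
    have e2 : decide (0 ≤ x₀.1 * x.1 + d * x₀.2 * x.2) = decide (0 ≤ x₀.1 * y.1 + d * x₀.2 * y.2) :=
      congrArg Prod.snd hxy
    have dx := hq1 x hx
    have dy := hq1 y hy
    rw [← e1] at dy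
    have hD : det x₀ x = det x₀ y := by rw [dx, dy]
    have hx1 := hS x hx
    have hy1 := hS y hy
    unfold IsRep at hx1 hy1
    have idx : (x₀.1 ^ 2 + d * x₀.2 ^ 2) * (x.1 ^ 2 + d * x.2 ^ 2) =
        (x₀.1 * x.1 + d * x₀.2 * x.2) ^ 2 + d * (det x₀ x) ^ 2 := by
      unfold det; ring
    have idy : (x₀.1 ^ 2 + d * x₀.2 ^ 2) * (y.1 ^ 2 + d * y.2 ^ 2) =
        (x₀.1 * y.1 + d * x₀.2 * y.2) ^ 2 + d * (det x₀ y) ^ 2 := by
      unfold det; ring
    rw [hx1] at idx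
    rw [hy1, ← hD] at idy
    have hsq : (x₀.1 * x.1 + d * x₀.2 * x.2) ^ 2 = (x₀.1 * y.1 + d * x₀.2 * y.2) ^ 2 := by
      linarith
    have hip : x₀.1 * x.1 + d * x₀.2 * x.2 = x₀.1 * y.1 + d * x₀.2 * y.2 := by
      rcases sq_eq_sq_iff_eq_or_eq_neg.1 hsq with h | h
      · exact h
      · by_cases hx0 : 0 ≤ x₀.1 * x.1 + d * x₀.2 * x.2
        · have hy0 : 0 ≤ x₀.1 * y.1 + d * x₀.2 * y.2 := by
            have := decide_eq_true hx0
            rw [e2] at this
            exact of_decide_eq_true this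
          linarith
        · have hy0 : ¬ 0 ≤ x₀.1 * y.1 + d * x₀.2 * y.2 := by
            intro hc
            apply hx0
            have := decide_eq_true hc
            rw [← e2] at this
            exact of_decide_eq_true this
          push Not at hx0 hy0
          linarith
    unfold det at hD
    have ht : (4 * (N : ℤ)) * x.1 = (4 * (N : ℤ)) * y.1 := by
      rw [← h0]
      linear_combination x₀.1 * hip - d * x₀.2 * hD
    have hb : (4 * (N : ℤ)) * x.2 = (4 * (N : ℤ)) * y.2 := by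
      rw [← h0]
      linear_combination x₀.2 * hip + x₀.1 * hD
    have h4N : (4 * (N : ℤ)) ≠ 0 := by positivity
    exact Prod.ext (mul_left_cancel₀ h4N ht) (mul_left_cancel₀ h4N hb)
  calc S.card ≤ ((Finset.Icc (-4 : ℤ) 4) ×ˢ (Finset.univ : Finset Bool)).card :=
        card_le_card_of_injOn φ hmap hinj
    _ = 18 := by simp

/-- the local index -/
theorem local_index (d : ℤ) (N : ℕ) (hN : 1 ≤ N) (p : ℕ) (hp : p.Prime) (hp2 : p ≠ 2)
    (hpd : ¬ (p : ℤ) ∣ d) : ∃ idx : ℤ × ℤ → ℕ, (∀ x, idx x ≤ N.factorization p) ∧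
      ∀ x y, IsRep d N x → IsRep d N y → idx x = idx y →
        (p : ℤ) ^ (N.factorization p) ∣ det x y := by
  classical
  obtain ⟨k, hk⟩ : ∃ k, k = N.factorization p := ⟨_, rfl⟩
  rw [← hk]
  have hpz : Prime (p : ℤ) := Nat.prime_iff_prime_int.1 hp
  have hp0 : (p : ℤ) ≠ 0 := hpz.ne_zero
  have hpk : (p : ℤ) ^ k ∣ (N : ℤ) := by
    rw [hk]
    exact_mod_cast Nat.ordProj_dvd N p
  have hpk1 : ¬ (p : ℤ) ^ (k + 1) ∣ (N : ℤ) := by
    rw [hk]
    intro h
    have : p ^ (N.factorization p + 1) ∣ N := by exact_mod_cast h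
    exact Nat.pow_succ_factorization_not_dvd (by omega) hp this
  have h2 : ¬ (p : ℤ) ∣ 2 := by
    intro h
    have : p ∣ 2 := by exact_mod_cast h
    rcases (Nat.dvd_prime Nat.prime_two).1 this with h | h
    · exact hp.one_lt.ne' h
    · exact hp2 h
  have hpk1' : ¬ (p : ℤ) ^ (k + 1) ∣ 4 * (N : ℤ) := by
    intro h
    apply hpk1
    have hc : IsCoprime ((p : ℤ) ^ (k + 1)) (4 : ℤ) := by
      apply IsCoprime.pow_left
      rw [hpz.irreducible.coprime_iff_not_dvd]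
      intro h4
      have : (p : ℤ) ∣ 2 * 2 := by norm_num; exact h4
      rcases hpz.dvd_or_dvd this with h | h <;> exact h2 h
    exact hc.dvd_of_dvd_mul_left h
  -- the gcd exponent
  set J : ℤ × ℤ → ℕ := fun x => Nat.findGreatest (fun j => (p : ℤ) ^ j ∣ x.1 ∧ (p : ℤ) ^ j ∣ x.2) (k / 2)
    with hJ
  have hJ1 : ∀ x, J x ≤ k / 2 := fun x => Nat.findGreatest_le _
  have hJ2 : ∀ x, (p : ℤ) ^ (J x) ∣ x.1 ∧ (p : ℤ) ^ (J x) ∣ x.2 := by
    intro x
    exact Nat.findGreatest_spec (P := fun j => (p : ℤ) ^ j ∣ x.1 ∧ (p : ℤ) ^ j ∣ x.2)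
      (m := 0) (n := k / 2) (by omega) (by simp)
  have hJ3 : ∀ x j, j ≤ k / 2 → (p : ℤ) ^ j ∣ x.1 → (p : ℤ) ^ j ∣ x.2 → j ≤ J x := by
    intro x j hj h1 h2
    exact Nat.le_findGreatest hj ⟨h1, h2⟩
  have hsqd : ∀ (m : ℕ) (t : ℤ), (p : ℤ) ^ (2 * m + 1) ∣ t ^ 2 → (p : ℤ) ^ (m + 1) ∣ t := by
    intro m
    induction m with
    | zero =>
      intro t h
      have : (p : ℤ) ∣ t ^ 2 := by simpa using h
      simpa using hpz.dvd_of_dvd_pow this
    | succ m ih =>
      intro t h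
      have h1 : (p : ℤ) ∣ t ^ 2 := dvd_trans (dvd_pow_self _ (by omega)) h
      obtain ⟨s, rfl⟩ := hpz.dvd_of_dvd_pow h1
      have h2 : (p : ℤ) ^ (2 * m + 1) ∣ s ^ 2 := by
        have e : ((p : ℤ) * s) ^ 2 = (p : ℤ) ^ 2 * s ^ 2 := by ring
        have e2 : (p : ℤ) ^ (2 * (m + 1) + 1) = (p : ℤ) ^ 2 * (p : ℤ) ^ (2 * m + 1) := by ring
        rw [e, e2] at h
        exact (mul_dvd_mul_iff_left (pow_ne_zero 2 hp0)).1 h
      have h3 := ih s h2
      have e3 : (p : ℤ) ^ (m + 1 + 1) = (p : ℤ) * (p : ℤ) ^ (m + 1) := by ring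
      rw [e3]
      exact mul_dvd_mul_left _ h3
  -- `b / p^j` is prime to `p`
  have hcop : ∀ x, IsRep d N x → 2 * J x < k → ¬ (p : ℤ) ^ (J x + 1) ∣ x.2 := by
    intro x hx hlt hb
    unfold IsRep at hx
    have hb2 : (p : ℤ) ^ (2 * J x + 2) ∣ d * x.2 ^ 2 := by
      apply Dvd.dvd.mul_left
      have : (p : ℤ) ^ (2 * J x + 2) = ((p : ℤ) ^ (J x + 1)) ^ 2 := by ring
      rw [this]
      exact pow_dvd_pow_of_dvd hb 2
    have ht : (p : ℤ) ^ (J x + 1) ∣ x.1 := by
      apply hsqd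
      have h1 : (p : ℤ) ^ (2 * J x + 1) ∣ 4 * (N : ℤ) :=
        (dvd_trans (pow_dvd_pow _ (by omega)) hpk).mul_left 4
      have h3 : (p : ℤ) ^ (2 * J x + 1) ∣ d * x.2 ^ 2 := dvd_trans (pow_dvd_pow _ (by omega)) hb2
      have e : x.1 ^ 2 = 4 * (N : ℤ) - d * x.2 ^ 2 := by linarith
      rw [e]
      exact dvd_sub h1 h3
    by_cases hk2 : 2 * J x + 2 ≤ k
    · have := hJ3 x (J x + 1) (by omega) ht hb
      omega
    · have hk3 : k = 2 * J x + 1 := by omega
      apply hpk1'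
      have : (p : ℤ) ^ (k + 1) ∣ x.1 ^ 2 + d * x.2 ^ 2 := by
        rw [hk3]
        apply dvd_add _ hb2
        have : (p : ℤ) ^ (2 * J x + 1 + 1) = ((p : ℤ) ^ (J x + 1)) ^ 2 := by ring
        rw [this]
        exact pow_dvd_pow_of_dvd ht 2
      rwa [hx] at this
  -- roots of `s² = -d`
  have hroot : ∀ m : ℕ, ∃ s : ℤ, (∃ s' : ℤ, (p : ℤ) ^ m ∣ s' ^ 2 + d) → (p : ℤ) ^ m ∣ s ^ 2 + d := by
    intro m
    by_cases h : ∃ s' : ℤ, (p : ℤ) ^ m ∣ s' ^ 2 + d
    · obtain ⟨s, hs⟩ := h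
      exact ⟨s, fun _ => hs⟩
    · exact ⟨0, fun h' => absurd h' h⟩
  choose s hs using hroot
  have htwo : ∀ x, IsRep d N x → 2 * J x < k →
      (p : ℤ) ^ (k - J x) ∣ x.1 - s (k - 2 * J x) * x.2 ∨
      (p : ℤ) ^ (k - J x) ∣ x.1 + s (k - 2 * J x) * x.2 := by
    intro x hx hlt
    have hc := hcop x hx hlt
    unfold IsRep at hx
    obtain ⟨j, hj⟩ : ∃ j, j = J x := ⟨_, rfl⟩
    rw [← hj] at hlt hc ⊢
    obtain ⟨τ, hτ⟩ := (hJ2 x).1
    obtain ⟨β, hβ⟩ := (hJ2 x).2
    rw [← hj] at hτ hβ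
    obtain ⟨m, hm⟩ : ∃ m, m = k - 2 * j := ⟨_, rfl⟩
    rw [← hm]
    have hβp : ¬ (p : ℤ) ∣ β := by
      intro h
      apply hc
      rw [hβ, pow_succ]
      exact mul_dvd_mul_left _ h
    have hm1 : 1 ≤ m := by omega
    have hrel : (p : ℤ) ^ m ∣ τ ^ 2 + d * β ^ 2 := by
      have h1 : (p : ℤ) ^ k ∣ x.1 ^ 2 + d * x.2 ^ 2 := by
        rw [hx]; exact hpk.mul_left 4
      have e1 : x.1 ^ 2 + d * x.2 ^ 2 = (p : ℤ) ^ (2 * j) * (τ ^ 2 + d * β ^ 2) := by
        rw [hτ, hβ]; ring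
      have e2 : (p : ℤ) ^ k = (p : ℤ) ^ (2 * j) * (p : ℤ) ^ m := by
        rw [← pow_add]; congr 1; omega
      rw [e1, e2] at h1
      exact (mul_dvd_mul_iff_left (pow_ne_zero _ hp0)).1 h1
    have hex : ∃ s' : ℤ, (p : ℤ) ^ m ∣ s' ^ 2 + d := by
      have hco : IsCoprime ((p : ℤ) ^ m) β :=
        IsCoprime.pow_left ((hpz.irreducible.coprime_iff_not_dvd).2 hβp)
      obtain ⟨u, v, huv⟩ := hco
      refine ⟨τ * v, ?_⟩
      have : (τ * v) ^ 2 + d = (τ ^ 2 + d * β ^ 2) * v ^ 2 + d * (1 - (v * β) ^ 2) := by ring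
      rw [this]
      apply dvd_add (hrel.mul_right _)
      have e3 : 1 - (v * β) ^ 2 = (1 - v * β) * (1 + v * β) := by ring
      have e4 : 1 - v * β = u * (p : ℤ) ^ m := by linarith
      rw [e3, e4]
      exact Dvd.dvd.mul_left (Dvd.dvd.mul_right (Dvd.intro_left _ rfl) _) _
    have hsm := hs m hex
    have hprod : (p : ℤ) ^ m ∣ (τ - s m * β) * (τ + s m * β) := by
      have : (τ - s m * β) * (τ + s m * β) = (τ ^ 2 + d * β ^ 2) - (s m ^ 2 + d) * β ^ 2 := by ring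
      rw [this]
      exact dvd_sub hrel (hsm.mul_right _)
    have hnot : ¬ ((p : ℤ) ∣ τ - s m * β ∧ (p : ℤ) ∣ τ + s m * β) := by
      rintro ⟨h1, h3⟩
      have h4 : (p : ℤ) ∣ 2 * (s m * β) := by
        have := dvd_sub h3 h1
        have e : τ + s m * β - (τ - s m * β) = 2 * (s m * β) := by ring
        rwa [e] at this
      rcases hpz.dvd_or_dvd h4 with h | h
      · exact h2 h
      rcases hpz.dvd_or_dvd h with h | h
      · apply hpd
        have h5 : (p : ℤ) ∣ s m ^ 2 + d := dvd_trans (dvd_pow_self _ (by omega)) hsm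
        exact (dvd_add_right (dvd_pow h two_ne_zero)).1 h5
      · exact hβp h
    have hcase : (p : ℤ) ^ m ∣ τ - s m * β ∨ (p : ℤ) ^ m ∣ τ + s m * β := by
      by_cases h1 : (p : ℤ) ∣ τ - s m * β
      · left
        have h3 : ¬ (p : ℤ) ∣ τ + s m * β := fun h => hnot ⟨h1, h⟩
        exact (IsCoprime.pow_left ((hpz.irreducible.coprime_iff_not_dvd).2 h3)).dvd_of_dvd_mul_right
          hprod
      · right
        exact (IsCoprime.pow_left ((hpz.irreducible.coprime_iff_not_dvd).2 h1)).dvd_of_dvd_mul_left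
          hprod
    have epow : (p : ℤ) ^ (k - j) = (p : ℤ) ^ j * (p : ℤ) ^ m := by
      rw [← pow_add]; congr 1; omega
    rw [hτ, hβ, epow]
    rcases hcase with h | h
    · left
      have e : (p : ℤ) ^ j * τ - s m * ((p : ℤ) ^ j * β) = (p : ℤ) ^ j * (τ - s m * β) := by ring
      rw [e]
      exact mul_dvd_mul_left _ h
    · right
      have e : (p : ℤ) ^ j * τ + s m * ((p : ℤ) ^ j * β) = (p : ℤ) ^ j * (τ + s m * β) := by ring
      rw [e]
      exact mul_dvd_mul_left _ h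
  -- the index
  refine ⟨fun x => if 2 * J x = k then k else
    2 * J x + (if (p : ℤ) ^ (k - J x) ∣ x.1 - s (k - 2 * J x) * x.2 then 0 else 1), ?_, ?_⟩
  · intro x
    have := hJ1 x
    dsimp only
    split_ifs <;> omega
  · intro x y hx hy hxy
    have h1 := hJ1 x
    have h3 := hJ1 y
    have hfin : ∀ (j : ℕ) (σ : ℤ), j ≤ k → (p : ℤ) ^ j ∣ x.2 → (p : ℤ) ^ j ∣ y.2 →
        (p : ℤ) ^ (k - j) ∣ x.1 - σ * x.2 → (p : ℤ) ^ (k - j) ∣ y.1 - σ * y.2 →
        (p : ℤ) ^ k ∣ det x y := by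
      intro j σ hj g1 g2 g3 g4
      have e : det x y = (x.1 - σ * x.2) * y.2 - (y.1 - σ * y.2) * x.2 := by unfold det; ring
      have e2 : (p : ℤ) ^ k = (p : ℤ) ^ (k - j) * (p : ℤ) ^ j := by
        rw [← pow_add]; congr 1; omega
      rw [e, e2]
      exact dvd_sub (mul_dvd_mul g3 g2) (mul_dvd_mul g4 g1)
    dsimp only at hxy
    by_cases hx2 : 2 * J x = k
    · have hy2 : 2 * J y = k := by
        rw [if_pos hx2] at hxy
        by_contra hne
        rw [if_neg hne] at hxy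
        split_ifs at hxy <;> omega
      have hJJ : J x = J y := by omega
      have a1 := hJ2 x
      have a2 := hJ2 y
      rw [← hJJ] at a2
      have e2 : (p : ℤ) ^ k = (p : ℤ) ^ (J x) * (p : ℤ) ^ (J x) := by
        rw [← pow_add]; congr 1; omega
      unfold det
      rw [e2]
      exact dvd_sub (mul_dvd_mul a1.1 a2.2) (mul_dvd_mul a2.1 a1.2)
    · have hy2 : 2 * J y ≠ k := by
        intro hne
        rw [if_neg hx2, if_pos hne] at hxy
        split_ifs at hxy <;> omega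
      rw [if_neg hx2, if_neg hy2] at hxy
      have hJJ : J x = J y := by
        split_ifs at hxy <;> omega
      have a1 := hJ2 x
      have a2 := hJ2 y
      have b1 := htwo x hx (by omega)
      have b2 := htwo y hy (by omega)
      rw [← hJJ] at a2 b2 hxy
      by_cases c1 : (p : ℤ) ^ (k - J x) ∣ x.1 - s (k - 2 * J x) * x.2
      · have c2 : (p : ℤ) ^ (k - J x) ∣ y.1 - s (k - 2 * J x) * y.2 := by
          by_contra hc
          rw [if_pos c1, if_neg hc] at hxy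
          omega
        exact hfin (J x) (s (k - 2 * J x)) (by omega) a1.2 a2.2 c1 c2
      · have c2 : ¬ (p : ℤ) ^ (k - J x) ∣ y.1 - s (k - 2 * J x) * y.2 := by
          intro hc
          rw [if_neg c1, if_pos hc] at hxy
          omega
        have d1 := b1.resolve_left c1
        have d2 := b2.resolve_left c2
        refine hfin (J x) (-s (k - 2 * J x)) (by omega) a1.2 a2.2 ?_ ?_
        · have e : x.1 - -s (k - 2 * J x) * x.2 = x.1 + s (k - 2 * J x) * x.2 := by ring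
          rw [e]; exact d1
        · have e : y.1 - -s (k - 2 * J x) * y.2 = y.1 + s (k - 2 * J x) * y.2 := by ring
          rw [e]; exact d2

/-- The number of representations `4 N = t² + d b²` is at most `18 τ(N)`, if `N` is prime to `2 d`. -/
theorem card_rep (d : ℤ) (hd : 1 ≤ d) (N : ℕ) (hN : 1 ≤ N)
    (hp : ∀ p : ℕ, p.Prime → p ∣ N → p ≠ 2 ∧ ¬ (p : ℤ) ∣ d) (S : Finset (ℤ × ℤ))
    (hS : ∀ x ∈ S, IsRep d N x) : S.card ≤ 18 * N.divisors.card := by
  classical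
  have key : ∀ F : Finset ℕ, F ⊆ N.primeFactors → ∃ S' : Finset (ℤ × ℤ), S' ⊆ S ∧
      S.card ≤ (∏ p ∈ F, (N.factorization p + 1)) * S'.card ∧
      ∀ p ∈ F, ∀ x ∈ S', ∀ y ∈ S', (p : ℤ) ^ (N.factorization p) ∣ det x y := by
    intro F
    induction F using Finset.induction_on with
    | empty =>
      intro _
      exact ⟨S, Subset.refl _, by simp, by simp⟩
    | insert p F hpF ih =>
      intro hsub
      obtain ⟨S', h1, h2, h3⟩ := ih ((Finset.subset_insert _ _).trans hsub)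
      have hpN := Nat.mem_primeFactors.1 (hsub (mem_insert_self p F))
      obtain ⟨hp2, hpd⟩ := hp p hpN.1 hpN.2.1
      obtain ⟨idx, i1, i2⟩ := local_index d N hN p hpN.1 hp2 hpd
      obtain ⟨k, hk⟩ : ∃ k, k = N.factorization p := ⟨_, rfl⟩
      rw [← hk] at i1 i2
      -- the largest fibre
      have hex : ∃ c ∈ range (k + 1), S'.card ≤ (k + 1) * (S'.filter (fun x => idx x = c)).card := by
        by_contra hcon
        push Not at hcon
        have hsum : S'.card = ∑ c ∈ range (k + 1), (S'.filter (fun x => idx x = c)).card := by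
          apply card_eq_sum_card_fiberwise
          intro x hx
          rw [mem_coe, mem_range]
          have := i1 x
          omega
        have h5 : ∑ c ∈ range (k + 1), (k + 1) * (S'.filter (fun x => idx x = c)).card <
            ∑ c ∈ range (k + 1), S'.card :=
          sum_lt_sum_of_nonempty ⟨0, by simp⟩ hcon
        rw [← mul_sum, ← hsum, sum_const, card_range, smul_eq_mul] at h5
        exact lt_irrefl _ h5
      obtain ⟨c, _, hc⟩ := hex
      refine ⟨S'.filter (fun x => idx x = c), (filter_subset _ _).trans h1, ?_, ?_⟩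
      · rw [prod_insert hpF, ← hk]
        calc S.card ≤ (∏ p ∈ F, (N.factorization p + 1)) * S'.card := h2
          _ ≤ (∏ p ∈ F, (N.factorization p + 1)) * ((k + 1) * (S'.filter (fun x => idx x = c)).card) :=
              Nat.mul_le_mul_left _ hc
          _ = _ := by ring
      · intro r hr x hx y hy
        rw [mem_filter] at hx hy
        rcases mem_insert.1 hr with rfl | hr
        · rw [← hk]
          exact i2 x y (hS x (h1 hx.1)) (hS y (h1 hy.1)) (by rw [hx.2, hy.2])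
        · exact h3 r hr x hx.1 y hy.1
  obtain ⟨S', h1, h2, h3⟩ := key N.primeFactors (Subset.refl _)
  have hτ : ∏ p ∈ N.primeFactors, (N.factorization p + 1) = N.divisors.card := by
    rw [Nat.card_divisors (by omega)]
  have hdiv : ∀ x ∈ S', ∀ y ∈ S', (N : ℤ) ∣ det x y := by
    intro x hx y hy
    have e : (N : ℤ) = ∏ p ∈ N.primeFactors, (p : ℤ) ^ (N.factorization p) := by
      conv_lhs => rw [← Nat.prod_factorization_pow_eq_self (show N ≠ 0 by omega)]
      rw [Finsupp.prod, Nat.support_factorization]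
      push_cast
      rfl
    rw [e]
    apply Finset.prod_dvd_of_coprime
    · intro p hp q hq hpq
      rw [mem_coe, Nat.mem_primeFactors] at hp hq
      apply IsCoprime.pow
      rw [Nat.isCoprime_iff_coprime]
      exact (Nat.coprime_primes hp.1 hq.1).2 hpq
    · intro p hp
      exact h3 p hp x hx y hy
  have h4 := few_same d hd N hN S' (fun x hx => hS x (h1 hx)) hdiv
  rw [hτ] at h2
  calc S.card ≤ N.divisors.card * S'.card := h2
    _ ≤ N.divisors.card * 18 := Nat.mul_le_mul_left _ h4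
    _ = 18 * N.divisors.card := by ring

end Pool.Agent.L7h34.DF
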